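import Pool.Agent.Work.MP_916cc8_co.HO.Stmts

set_option autoImplicit false

namespace Pool.Agent.Work.MP_916cc8_co.HO

open scoped Classical

namespace AN

theorem F_mono (P : Finset Pt) {h h' : ℝ} (hh : h ≤ h') (a b : ℝ) : F P h a b ≤ F P h' a b := by
  unfold F
  refine Finset.card_le_card (fun p hp => ?_)
  rw [Finset.mem_filter] at hp ⊢
  exact ⟨hp.1, hp.2.trans hh⟩

end AN

theorem I_N (hstrip : St_strip) (hline : St_line) (hrich : St_rich) : St_N := by
  intro K k P hC hB A r hA hr hr0 N hN hF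
  have hS : (0 : ℝ) < 2 ^ k := by positivity
  set S : ℝ := 2 ^ k with hSdef
  rcases N.eq_empty_or_nonempty with rfl | ⟨z, hz⟩
  · simp only [Finset.card_empty, Nat.cast_zero, zero_mul]
    positivity
  have hzf := hN hz
  unfold far at hzf
  rw [Finset.mem_filter, Finset.mem_product] at hzf
  obtain ⟨⟨hz1, hz2⟩, hz3⟩ := hzf
  have hsl : |sl z.1 z.2| ≤ 6 :=
    ((hline S A P hS (by linarith) hB z.1 hz1 z.2 hz2 z.2 hz2 hz3).1).trans (by norm_num)
  have hw : 0 < 8 * A / S := by positivity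
  set w : ℝ := 8 * A / S with hwdef
  have hwS : S * w = 8 * A := by rw [hwdef]; field_simp
  have h1 : r ≤ 4 * K * S * (w + 4) :=
    (hF z hz).trans (hstrip K k P hC hB w _ _ hw.le hsl)
  have hK0 : (0 : ℝ) ≤ K := Nat.cast_nonneg K
  have hw1 : w ≤ 1 := by
    by_contra hlt
    push Not at hlt
    have h2 : 4 * K * S * (w + 4) ≤ 4 * K * S * (5 * w) :=
      mul_le_mul_of_nonneg_left (by linarith) (by positivity)
    have h3 : 4 * K * S * (5 * w) = 160 * K * A := by
      have : 4 * (K : ℝ) * S * (5 * w) = 20 * K * (S * w) := by ring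
      rw [this, hwS]; ring
    nlinarith
  have h2 : r ≤ 20 * K * S := by
    have : 4 * (K : ℝ) * S * (w + 4) ≤ 4 * K * S * 5 :=
      mul_le_mul_of_nonneg_left (by linarith) (by positivity)
    linarith
  have hKpos : (0 : ℝ) < K := by
    rcases hK0.lt_or_eq with h | h
    · exact h
    · rw [← h] at h2
      linarith
  have hden : (0 : ℝ) < 240 * K * S := by positivity
  have hW0 : 0 < r / (240 * K * S) := by positivity
  set W : ℝ := r / (240 * K * S) with hWdef
  have hWr : 240 * K * S * W = r := by rw [hWdef]; field_simp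
  have hW12 : W ≤ 1 / 12 := by
    rw [hWdef, div_le_iff₀ hden]
    linarith
  have hwW : w ≤ W / 4 := by
    rw [hwdef, div_le_iff₀ hS]
    have : 240 * K * (W / 4 * S) = r / 4 := by rw [← hWr]; ring
    have h4 : 240 * K * (8 * A) ≤ 240 * K * (W / 4 * S) := by rw [this]; linarith
    exact le_of_mul_le_mul_left h4 (by positivity)
  -- J
  have hx4 : (4 : ℝ) ≤ 1 / (3 * W) := by
    rw [le_div_iff₀ (by positivity)]; linarith
  have hJ1 : (⌊1 / (3 * W)⌋₊ : ℝ) ≤ 1 / (3 * W) := Nat.floor_le (by positivity)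
  have hJ2 : 1 / (3 * W) < (⌊1 / (3 * W)⌋₊ : ℝ) + 1 := Nat.lt_floor_add_one _
  have hJ0 : 1 ≤ ⌊1 / (3 * W)⌋₊ := by
    rw [Nat.one_le_floor_iff]
    linarith
  set J : ℕ := ⌊1 / (3 * W)⌋₊ with hJdef
  have hJ3 : 3 * W * J ≤ 1 := by
    have := mul_le_mul_of_nonneg_left hJ1 (by positivity : (0 : ℝ) ≤ 3 * W)
    rwa [mul_one_div_cancel (by positivity : (3 * W : ℝ) ≠ 0)] at this
  have hJ4 : 40 * K * S ≤ J * r := by
    have e1 : 1 / (6 * W) ≤ (J : ℝ) := by
      have e2 : 1 / (3 * W) = 2 * (1 / (6 * W)) := by field_simp; norm_num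
      linarith
    have e3 : 1 / (6 * W) * r ≤ J * r := mul_le_mul_of_nonneg_right e1 hr0.le
    have e4 : 1 / (6 * W) * r = 40 * K * S := by
      rw [← hWr]; field_simp; ring
    linarith
  have h5 := hrich K k J P hC hB W r hW0 (by linarith) hJ0 hJ3 hJ4 hr0 N hN (fun z hz => by
    refine (hF z hz).trans ?_
    exact_mod_cast AN.F_mono P hwW _ _)
  have h6 : (N.card : ℝ) * W * (240 * K * S) ≤ 160000 * K * P.card * S * (k + 2) * (240 * K * S) :=
    mul_le_mul_of_nonneg_right h5 hden.le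
  have h7 : (N.card : ℝ) * W * (240 * K * S) = N.card * r := by rw [← hWr]; ring
  rw [h7] at h6
  refine h6.trans ?_
  have h8 : (0 : ℝ) ≤ (K : ℝ) ^ 2 * P.card * S ^ 2 * (k + 2) := by positivity
  nlinarith

end Pool.Agent.Work.MP_916cc8_co.HO
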