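import Pool.Agent.Work.MP_916cc8_co.HO.Stmts

/-! Item S1: sums over all pairs. -/

set_option autoImplicit false

namespace Pool.Agent.Work.MP_916cc8_co.HO

open MeasureTheory

namespace AS1

/-- split a sum into near and far parts and bound each -/
theorem split (K : ℕ) (P : Finset Pt) (hnear : St_near) (hC : Cells K P) (p : Pt)
    (I D : Pt → ℝ) (c B T : ℝ) (hc : 0 ≤ c) (hB : 0 ≤ B)
    (h1 : ∀ q ∈ P, I q ≤ c)
    (h2 : ∀ q ∈ P, 1 ≤ ds p q → I q ≤ B * D q)
    (hT : ∑ q ∈ P.filter (fun q => 1 ≤ ds p q), D q ≤ T) :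
    ∑ q ∈ P, I q ≤ B * T + 16 * K * c := by
  classical
  rw [← Finset.sum_filter_add_sum_filter_not P (fun q => 1 ≤ ds p q)]
  have ha : ∑ q ∈ P.filter (fun q => 1 ≤ ds p q), I q ≤ B * T := by
    calc ∑ q ∈ P.filter (fun q => 1 ≤ ds p q), I q
        ≤ ∑ q ∈ P.filter (fun q => 1 ≤ ds p q), B * D q := by
          apply Finset.sum_le_sum
          intro q hq
          rw [Finset.mem_filter] at hq
          exact h2 q hq.1 hq.2
      _ = B * ∑ q ∈ P.filter (fun q => 1 ≤ ds p q), D q := by rw [Finset.mul_sum]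
      _ ≤ B * T := mul_le_mul_of_nonneg_left hT hB
  have hb : ∑ q ∈ P.filter (fun q => ¬ 1 ≤ ds p q), I q ≤ 16 * K * c := by
    have hcard : (((P.filter (fun q => ¬ 1 ≤ ds p q)).card : ℕ) : ℝ) ≤ 16 * K := by
      have hn := hnear K P hC p 1 le_rfl
      have hsub : (P.filter (fun q => ¬ 1 ≤ ds p q)) ⊆ (P.filter fun q => ds p q ≤ 1) := by
        intro q hq
        rw [Finset.mem_filter] at hq ⊢
        exact ⟨hq.1, (not_le.mp hq.2).le⟩
      have h3 : (((P.filter (fun q => ¬ 1 ≤ ds p q)).card : ℕ) : ℝ)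
          ≤ (((P.filter fun q => ds p q ≤ 1).card : ℕ) : ℝ) := by
        exact_mod_cast Finset.card_le_card hsub
      have h4 : (16 * K * (1 : ℝ) ^ 2 : ℝ) = 16 * K := by ring
      linarith
    calc ∑ q ∈ P.filter (fun q => ¬ 1 ≤ ds p q), I q
        ≤ ∑ q ∈ P.filter (fun q => ¬ 1 ≤ ds p q), c := by
          apply Finset.sum_le_sum
          intro q hq
          rw [Finset.mem_filter] at hq
          exact h1 q hq.1
      _ = ((P.filter (fun q => ¬ 1 ≤ ds p q)).card : ℝ) * c := by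
          rw [Finset.sum_const, nsmul_eq_mul]
      _ ≤ 16 * K * c := mul_le_mul_of_nonneg_right hcard hc
  linarith

end AS1

theorem I_S1 (hnear : St_near) (hsum1 : St_sum1) (ha0 : St_a0) (ha1 : St_a1) : St_S1 := by
  intro K k P hC hBox h hh
  have h2k : (0 : ℝ) < 2 ^ k := by positivity
  have hhS : 6 ≤ h * 2 ^ k := by
    rw [div_le_iff₀ h2k] at hh
    exact hh
  have hpos : 0 < h := by
    have : (0 : ℝ) < 6 / 2 ^ k := by positivity
    linarith
  have hK : (0 : ℝ) ≤ K := Nat.cast_nonneg K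
  have hone : ∀ p ∈ P, ∑ q ∈ P, ∫ a : ℝ, om a * tau h (zz p q a) ≤ 25000 * K * 2 ^ k * h ^ 2 := by
    intro p hp
    have hs := AS1.split K P hnear hC p (fun q => ∫ a : ℝ, om a * tau h (zz p q a))
      (fun q => 1 / ds p q) (24 * h) (192 * h ^ 2) (128 * K * 2 ^ k) (by positivity)
      (by positivity)
      (by
        intro q _
        have h3 := (ha0 p q h 0 hpos).2.2
        simpa using h3)
      (by
        intro q _ hq
        have h3 := ha1 p q h hpos (by linarith)
        have h4 : 192 * h ^ 2 * (1 / ds p q) = 192 * h ^ 2 / ds p q := by ring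
        rw [h4]
        exact h3)
      (hsum1 K k P hC hBox p hp)
    refine hs.trans ?_
    have h5 : 0 ≤ (K : ℝ) * h * (h * 2 ^ k - 6) := by
      apply mul_nonneg (by positivity)
      linarith
    have h6 : 0 ≤ (K : ℝ) * 2 ^ k * h ^ 2 := by positivity
    nlinarith
  calc ∑ p ∈ P, ∑ q ∈ P, ∫ a : ℝ, om a * tau h (zz p q a)
      ≤ ∑ p ∈ P, 25000 * K * 2 ^ k * h ^ 2 := Finset.sum_le_sum hone
    _ = 25000 * K * P.card * 2 ^ k * h ^ 2 := by
        rw [Finset.sum_const, nsmul_eq_mul]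
        ring

theorem I_S2 (hnear : St_near) (hsum2 : St_sum2) (ha0 : St_a0) (ha2 : St_a2) : St_S2 := by
  intro K k P hC hBox h t hpos hh ht0 ht1
  have hK : (0 : ℝ) ≤ K := Nat.cast_nonneg K
  have hk : (0 : ℝ) ≤ k := Nat.cast_nonneg k
  have hone : ∀ p ∈ P, ∑ q ∈ P, ∫ a : ℝ, (om a * tau h (zz p q a) - om a * tau h (zz p q a + t))
      ≤ 5000 * K * h * (k + 2) := by
    intro p hp
    have hs := AS1.split K P hnear hC p
      (fun q => ∫ a : ℝ, (om a * tau h (zz p q a) - om a * tau h (zz p q a + t)))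
      (fun q => 1 / ds p q ^ 2) (24 * h) (512 * h ^ 2) (64 * K * (k + 2)) (by positivity)
      (by positivity)
      (by
        intro q _
        have h3 := ha0 p q h 0 hpos
        have h4 := ha0 p q h t hpos
        simp only [add_zero] at h3
        show ∫ a : ℝ, (om a * tau h (zz p q a) - om a * tau h (zz p q a + t)) ≤ 24 * h
        rw [integral_sub h3.1 h4.1]
        linarith [h3.2.2, h4.2.1])
      (by
        intro q _ hq
        have h3 := ha2 p q h t hpos hh ht0 ht1 hq
        have h4 : 512 * h ^ 2 * (1 / ds p q ^ 2) = 512 * h ^ 2 / ds p q ^ 2 := by ring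
        rw [h4]
        exact h3)
      (hsum2 K k P hC hBox p hp)
    refine hs.trans ?_
    have h5 : 0 ≤ (K : ℝ) * h * (k + 2) * (1 / 8 - h) := by
      apply mul_nonneg (by positivity)
      linarith
    have h6 : 0 ≤ (K : ℝ) * h * (k + 2) := by positivity
    have h7 : 0 ≤ (K : ℝ) * h * k := by positivity
    nlinarith
  calc ∑ p ∈ P, ∑ q ∈ P, ∫ a : ℝ, (om a * tau h (zz p q a) - om a * tau h (zz p q a + t))
      ≤ ∑ p ∈ P, 5000 * K * h * (k + 2) := Finset.sum_le_sum hone
    _ = 5000 * K * P.card * h * (k + 2) := by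
        rw [Finset.sum_const, nsmul_eq_mul]
        ring

end Pool.Agent.Work.MP_916cc8_co.HO
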