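import Pool.Agent.Work.MP_916cc8_co.HO.Stmts

set_option autoImplicit false

namespace Pool.Agent.Work.MP_916cc8_co.HO

open scoped Classical

namespace AT1

theorem dyadic (x r : ℝ) (m : ℕ) (h1 : r ≤ x) (h2 : x < 2 ^ m * r) :
    ∃ i < m, 2 ^ i * r ≤ x ∧ x < 2 * (2 ^ i * r) := by
  have hex : ∃ m : ℕ, x < 2 ^ m * r := ⟨m, h2⟩
  have h3 := Nat.find_spec hex
  have h4 : Nat.find hex ≤ m := Nat.find_min' hex h2
  have h5 : Nat.find hex ≠ 0 := by
    intro h
    rw [h, pow_zero, one_mul] at h3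
    linarith
  obtain ⟨j, hj⟩ := Nat.exists_eq_succ_of_ne_zero h5
  have h6 := Nat.find_min hex (m := j) (by omega)
  rw [hj] at h3 h4
  refine ⟨j, by omega, not_lt.1 h6, ?_⟩
  have : (2 : ℝ) ^ (j.succ) * r = 2 * (2 ^ j * r) := by rw [pow_succ]; ring
  linarith

end AT1

open AT1 in
theorem I_T1 (hline : St_line) (hnpt : St_npt) (hN : St_N) : St_T1 := by
  refine ⟨640000000, by norm_num, ?_⟩
  intro K k P hK hc hb A B hA hAB hB
  have hS : (0 : ℝ) < 2 ^ k := by positivity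
  have hK1 : (1 : ℝ) ≤ K := by exact_mod_cast hK
  set G : Pt × Pt → ℝ := fun z => (F P (8 * B / 2 ^ k) (sl z.1 z.2) (ic z.1 z.2) : ℝ) with hG
  set R0 : ℝ := 7680 * K * B with hR0
  have hR0p : 7680 * (K : ℝ) ≤ R0 := by rw [hR0]; nlinarith
  have hR0pos : 0 < R0 := by nlinarith
  set T := (triX (2 ^ k) P A).filter fun t =>
      7680 * K * B ≤ F P (8 * B / 2 ^ k) (sl t.1 t.2.1) (ic t.1 t.2.1) with hT
  set N0 := (far (2 ^ k) P).filter fun z => R0 ≤ G z with hN0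
  have hmaps : ∀ t ∈ T, (t.1, t.2.1) ∈ N0 := by
    intro t ht
    rw [hT, Finset.mem_filter] at ht
    obtain ⟨ht1, ht2⟩ := ht
    rw [triX, Finset.mem_filter, tri, Finset.mem_filter, Finset.mem_product,
      Finset.mem_product] at ht1
    rw [hN0, Finset.mem_filter, far, Finset.mem_filter, Finset.mem_product]
    exact ⟨⟨⟨ht1.1.1.1, ht1.1.1.2.1⟩, ht1.2⟩, ht2⟩
  -- the fibers
  have hfib : ∀ z ∈ N0, ((T.filter fun t => (t.1, t.2.1) = z).card : ℝ) ≤ G z := by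
    intro z _
    have : (T.filter fun t => (t.1, t.2.1) = z).card ≤
        F P (8 * B / 2 ^ k) (sl z.1 z.2) (ic z.1 z.2) := by
      unfold F
      refine Finset.card_le_card_of_injOn (fun t => t.2.2) ?_ ?_
      · intro t ht
        rw [Finset.mem_coe, Finset.mem_filter] at ht
        obtain ⟨ht0, rfl⟩ := ht
        rw [hT, Finset.mem_filter, triX, Finset.mem_filter, tri, Finset.mem_filter,
          Finset.mem_product, Finset.mem_product] at ht0
        obtain ⟨⟨⟨⟨h1, h2, h3⟩, h4⟩, h5⟩, h6⟩ := ht0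
        rw [Finset.mem_coe, Finset.mem_filter]
        refine ⟨h3, ?_⟩
        have := (hline (2 ^ k) A P hS hA.le hb t.1 h1 t.2.1 h2 t.2.2 h3 h5).2.2 h4
        refine this.trans ?_
        exact div_le_div_of_nonneg_right (by linarith) hS.le
      · intro t ht t' ht' he
        rw [Finset.mem_coe, Finset.mem_filter] at ht ht'
        have h1 := ht.2.trans ht'.2.symm
        rw [Prod.mk.injEq] at h1
        exact Prod.ext h1.1 (Prod.ext h1.2 he)
    exact Nat.cast_le.2 this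
  have h1 : (T.card : ℝ) ≤ ∑ z ∈ N0, G z := by
    rw [Finset.card_eq_sum_card_fiberwise (f := fun t : Pt × Pt × Pt => (t.1, t.2.1)) (t := N0)
      (fun t ht => hmaps t ht), Nat.cast_sum]
    exact Finset.sum_le_sum hfib
  have hcard := hnpt K k P hc hb
  have hGle : ∀ z, G z < 2 ^ (2 * k + 1) * R0 := by
    intro z
    have h2 : G z ≤ P.card := by
      rw [hG]; simp only [F]
      exact_mod_cast Finset.card_filter_le _ _
    have h3 : (2 : ℝ) ^ (2 * k + 1) = 2 * (2 ^ k) ^ 2 := by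
      rw [pow_succ, pow_mul, mul_comm, ← pow_mul, mul_comm 2 k, pow_mul]
    rw [h3]
    have h4 : (0 : ℝ) < (2 ^ k) ^ 2 := by positivity
    nlinarith
  -- dyadic decomposition
  have h2 : ∀ z ∈ N0, G z ≤ 2 * ∑ i ∈ Finset.range (2 * k + 1),
      (if 2 ^ i * R0 ≤ G z then 2 ^ i * R0 else 0) := by
    intro z hz
    rw [hN0, Finset.mem_filter] at hz
    obtain ⟨i, hi, h3, h4⟩ := dyadic (G z) R0 (2 * k + 1) hz.2 (hGle z)
    have h5 : (2 : ℝ) ^ i * R0 ≤ ∑ i ∈ Finset.range (2 * k + 1),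
        (if 2 ^ i * R0 ≤ G z then 2 ^ i * R0 else 0) := by
      refine le_trans (le_of_eq (if_pos h3).symm) (Finset.single_le_sum
        (f := fun i => (if (2 : ℝ) ^ i * R0 ≤ G z then 2 ^ i * R0 else 0)) ?_
        (Finset.mem_range.2 hi))
      intro j _
      split_ifs
      · positivity
      · exact le_rfl
    linarith
  have h3 : ∀ i : ℕ, ∑ z ∈ N0, (if (2 : ℝ) ^ i * R0 ≤ G z then (2 : ℝ) ^ i * R0 else 0) ≤
      40000000 * K ^ 2 * (4 * K * (2 ^ k) ^ 2) * (2 ^ k) ^ 2 * (k + 2) := by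
    intro i
    rw [← Finset.sum_filter, Finset.sum_const, nsmul_eq_mul]
    have h4 : (1 : ℝ) ≤ 2 ^ i := one_le_pow₀ (by norm_num)
    have h5 := hN K k P hc hb B (2 ^ i * R0) hB (by rw [← hR0]; nlinarith) (by positivity)
      (N0.filter fun z => (2 : ℝ) ^ i * R0 ≤ G z)
      ((Finset.filter_subset _ _).trans (Finset.filter_subset _ _))
      (fun z hz => (Finset.mem_filter.1 hz).2)
    refine h5.trans ?_
    have h6 : (0 : ℝ) ≤ 40000000 * K ^ 2 := by positivity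
    have h7 : (0 : ℝ) ≤ (2 ^ k) ^ 2 := by positivity
    have h8 : (0 : ℝ) ≤ (k : ℝ) + 2 := by positivity
    exact mul_le_mul_of_nonneg_right (mul_le_mul_of_nonneg_right
      (mul_le_mul_of_nonneg_left hcard h6) h7) h8
  have h4 : ∑ z ∈ N0, G z ≤ 2 * ((2 * k + 1 : ℕ) *
      (40000000 * K ^ 2 * (4 * K * (2 ^ k) ^ 2) * (2 ^ k) ^ 2 * (k + 2))) := by
    refine (Finset.sum_le_sum h2).trans ?_
    rw [← Finset.mul_sum, Finset.sum_comm]
    refine mul_le_mul_of_nonneg_left ?_ (by norm_num)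
    refine (Finset.sum_le_sum fun i _ => h3 i).trans ?_
    rw [Finset.sum_const, Finset.card_range, nsmul_eq_mul]
  refine h1.trans (h4.trans ?_)
  push_cast
  have hk0 : (0 : ℝ) ≤ k := Nat.cast_nonneg k
  generalize (k : ℝ) = m at hk0
  generalize (2 : ℝ) ^ k = σ at hS
  generalize (K : ℝ) = κ at hK1
  have h5 : 0 ≤ κ ^ 3 * σ ^ 4 * (m + 2) := by positivity
  have h6 : 2 * m + 1 ≤ 2 * (m + 2) := by linarith
  calc 2 * ((2 * m + 1) * (40000000 * κ ^ 2 * (4 * κ * σ ^ 2) * σ ^ 2 * (m + 2)))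
      = 320000000 * ((2 * m + 1) * (κ ^ 3 * σ ^ 4 * (m + 2))) := by ring
    _ ≤ 320000000 * (2 * (m + 2) * (κ ^ 3 * σ ^ 4 * (m + 2))) :=
        mul_le_mul_of_nonneg_left (mul_le_mul_of_nonneg_right h6 h5) (by norm_num)
    _ = 640000000 * (κ ^ 3 * σ ^ 4 * (m + 2) ^ 2) * 1 := by ring
    _ ≤ 640000000 * (κ ^ 3 * σ ^ 4 * (m + 2) ^ 2) * κ :=
        mul_le_mul_of_nonneg_left hK1 (by positivity)
    _ = 640000000 * κ ^ 4 * σ ^ 4 * (m + 2) ^ 2 := by ring

end Pool.Agent.Work.MP_916cc8_co.HO
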