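import Pool.Agent.Work.MP_916cc8_co.HO.Stmts

set_option autoImplicit false

namespace Pool.Agent.Work.MP_916cc8_co.HO

open MeasureTheory

open scoped Classical

namespace AT2

theorem om_nonneg (a : ℝ) : 0 ≤ om a := le_max_left _ _

theorem om_one (a : ℝ) (h : |a| ≤ 5) : om a = 1 := by
  unfold om
  rw [min_eq_left (by linarith), max_eq_right (by norm_num)]

theorem tau_nonneg (h z : ℝ) : 0 ≤ tau h z := le_max_left _ _

theorem rpow_sixth_le (x : ℝ) (h : 1 ≤ x) : x ^ ((1 : ℝ) / 6) ≤ x := by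
  have := Real.rpow_le_rpow_of_exponent_le h (show (1 : ℝ) / 6 ≤ 1 by norm_num)
  rwa [Real.rpow_one] at this

end AT2

open AT2 in
theorem I_T2 (hline : St_line) (hnpt : St_npt) (hbint : St_bint) (ha0 : St_a0) (hS1 : St_S1)
    (hU : St_U) (hfix2 : St_fix2) : St_T2 := by
  obtain ⟨C, hC, hCU⟩ := hU
  refine ⟨3600000 * 7680 * C, by positivity, ?_⟩
  intro K k P hK hc hb A B hA hAB hB hBS
  have hS : (0 : ℝ) < 2 ^ k := by positivity
  have hK1 : (1 : ℝ) ≤ K := by exact_mod_cast hK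
  have hcard := hnpt K k P hc hb
  set w : ℝ := 8 * B / 2 ^ k with hw
  have hwp : 0 < w := by rw [hw]; positivity
  set R : ℝ := 7680 * K * B with hR
  have hRp : 0 < R := by rw [hR]; nlinarith
  set N := (triX (2 ^ k) P A).filter fun t =>
      ¬ R ≤ F P w (sl t.1 t.2.1) (ic t.1 t.2.1) with hN
  set δ : ℝ := w / (32 * 2 ^ k) with hδ
  have hδp : 0 < δ := by rw [hδ]; positivity
  have hδ1 : δ ≤ 1 := by
    rw [hδ, hw, div_div, div_le_one (by positivity)]
    nlinarith
  have hNsub : N ⊆ triX (2 ^ k) P A := Finset.filter_subset _ _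
  have hNF : ∀ t ∈ N, (F P w (sl t.1 t.2.1) (ic t.1 t.2.1) : ℝ) ≤ R := by
    intro t ht
    exact (not_le.1 (Finset.mem_filter.1 ht).2).le
  have hsl : ∀ t ∈ N, |sl t.1 t.2.1| ≤ 4 := by
    intro t ht
    have ht0 := hNsub ht
    rw [triX, Finset.mem_filter, tri, Finset.mem_filter,
      Finset.mem_product, Finset.mem_product] at ht0
    obtain ⟨⟨⟨h1, h2, h3⟩, h4⟩, h5⟩ := ht0
    exact (hline (2 ^ k) A P hS hA.le hb t.1 h1 t.2.1 h2 t.2.2 h3 h5).1
  have hh : 0 < 3 * w / 4 := by positivity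
  -- the right side
  set f : ℝ → ℝ := fun a => ∑ p ∈ P, ∑ q ∈ P, om a * tau (3 * w / 4) (zz p q a) with hf
  have hint : ∀ p q : Pt, Integrable (fun a : ℝ => om a * tau (3 * w / 4) (zz p q a)) := by
    intro p q
    have := (ha0 p q (3 * w / 4) 0 hh).1
    simpa using this
  have hfint : Integrable f := by
    rw [hf]
    exact integrable_finsetSum _ fun p _ => integrable_finsetSum _ fun q _ => hint p q
  have hfval : ∫ a, f a ≤ 25000 * K * P.card * 2 ^ k * (3 * w / 4) ^ 2 := by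
    have h1 : ∫ a, f a = ∑ p ∈ P, ∑ q ∈ P, ∫ a : ℝ, om a * tau (3 * w / 4) (zz p q a) := by
      rw [hf, integral_finsetSum _ fun p _ => integrable_finsetSum _ fun q _ => hint p q]
      refine Finset.sum_congr rfl fun p _ => ?_
      rw [integral_finsetSum _ fun q _ => hint p q]
    rw [h1]
    refine hS1 K k P hc hb _ ?_
    rw [hw, div_le_iff₀ hS]
    have : 3 * (8 * B / 2 ^ k) / 4 * 2 ^ k = 6 * B := by field_simp; ring
    rw [this]; linarith
  have hf0 : ∀ a, 0 ≤ f a := fun a => Finset.sum_nonneg fun p _ => Finset.sum_nonneg fun q _ =>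
    mul_nonneg (om_nonneg a) (tau_nonneg _ _)
  -- the left side
  set g : ℝ → ℝ := fun a => ∑ t ∈ N, Set.indicator (Set.Icc (sl t.1 t.2.1 - δ) (sl t.1 t.2.1 + δ))
    (fun _ => w / 4) a with hg
  have hgi : ∀ t : Pt × Pt × Pt, Integrable (Set.indicator
      (Set.Icc (sl t.1 t.2.1 - δ) (sl t.1 t.2.1 + δ)) (fun _ : ℝ => w / 4)) := by
    intro t
    refine IntegrableOn.integrable_indicator ?_ measurableSet_Icc
    exact integrableOn_const (by rw [Real.volume_Icc]; exact ENNReal.ofReal_ne_top)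
  have hgint : Integrable g := integrable_finsetSum _ fun t _ => hgi t
  have hgval : ∫ a, g a = N.card * (2 * δ * (w / 4)) := by
    rw [hg, integral_finsetSum _ fun t _ => hgi t]
    rw [Finset.sum_congr rfl (g := fun _ => 2 * δ * (w / 4)), Finset.sum_const, nsmul_eq_mul]
    intro t _
    rw [integral_indicator measurableSet_Icc, setIntegral_const, Measure.real, Real.volume_Icc,
      ENNReal.toReal_ofReal (by linarith), smul_eq_mul]
    ring
  have hpt : ∀ a, g a ≤ C * R ^ ((1 : ℝ) / 6) * f a := by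
    intro a
    have hRr : 0 ≤ R ^ ((1 : ℝ) / 6) := Real.rpow_nonneg hRp.le _
    have h1 : g a = ((N.filter fun t => |a - sl t.1 t.2.1| ≤ δ).card : ℝ) * (w / 4) := by
      rw [hg]
      simp only
      have e := Finset.sum_filter (s := N) (fun t : Pt × Pt × Pt => |a - sl t.1 t.2.1| ≤ δ)
        (fun _ => w / 4)
      rw [← nsmul_eq_mul, ← Finset.sum_const, e]
      refine Finset.sum_congr rfl fun t _ => ?_
      rw [Set.indicator_apply]
      refine if_congr ?_ rfl rfl
      rw [Set.mem_Icc, abs_le]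
      constructor
      · rintro ⟨h1, h2⟩; exact ⟨by linarith, by linarith⟩
      · rintro ⟨h1, h2⟩; exact ⟨by linarith, by linarith⟩
    rw [h1]
    rcases Finset.eq_empty_or_nonempty (N.filter fun t => |a - sl t.1 t.2.1| ≤ δ) with he | he
    · rw [he, Finset.card_empty, Nat.cast_zero, zero_mul]
      exact mul_nonneg (mul_nonneg hC.le hRr) (hf0 a)
    · obtain ⟨t, ht⟩ := he
      rw [Finset.mem_filter] at ht
      have h2 := hsl t ht.1
      have h3 : |a| ≤ 5 := by
        have := abs_sub_abs_le_abs_sub a (sl t.1 t.2.1)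
        linarith [ht.2]
      have h4 := hfix2 C hC hCU k P hb A B w R a hA hAB hw hRp hB N hNsub hNF
      refine h4.trans (le_of_eq ?_)
      rw [(hbint P (3 * w / 4) a hh).2, hf]
      simp only [om_one a h3, one_mul]
  have hmono := integral_mono hgint (hfint.const_mul (C * R ^ ((1 : ℝ) / 6))) hpt
  rw [hgval, integral_const_mul] at hmono
  have hRr : 0 ≤ R ^ ((1 : ℝ) / 6) := Real.rpow_nonneg hRp.le _
  have h5 : (N.card : ℝ) * (2 * δ * (w / 4)) ≤ C * R ^ ((1 : ℝ) / 6) *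
      (25000 * K * P.card * 2 ^ k * (3 * w / 4) ^ 2) :=
    hmono.trans (mul_le_mul_of_nonneg_left hfval (mul_nonneg hC.le hRr))
  have h6 : (N.card : ℝ) ≤ 900000 * C * R ^ ((1 : ℝ) / 6) * K * P.card * (2 ^ k) ^ 2 := by
    have e1 : (N.card : ℝ) * (2 * δ * (w / 4)) = N.card * (w ^ 2 / (64 * 2 ^ k)) := by
      rw [hδ]; field_simp; ring
    have e2 : C * R ^ ((1 : ℝ) / 6) * (25000 * K * P.card * 2 ^ k * (3 * w / 4) ^ 2) =
        (900000 * C * R ^ ((1 : ℝ) / 6) * K * P.card * (2 ^ k) ^ 2) * (w ^ 2 / (64 * 2 ^ k)) := by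
      field_simp; ring
    rw [e1, e2] at h5
    exact le_of_mul_le_mul_right h5 (by positivity)
  have h7 : R ^ ((1 : ℝ) / 6) ≤ 7680 * K * B ^ ((1 : ℝ) / 6) := by
    rw [hR, Real.mul_rpow (by positivity) (by positivity)]
    refine mul_le_mul_of_nonneg_right ?_ (Real.rpow_nonneg (by positivity) _)
    exact rpow_sixth_le _ (by nlinarith)
  have hB0 : 0 ≤ B ^ ((1 : ℝ) / 6) := Real.rpow_nonneg (by positivity) _
  have h8 : (N.card : ℝ) ≤ 900000 * C * (7680 * K * B ^ ((1 : ℝ) / 6)) * K *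
      (4 * K * (2 ^ k) ^ 2) * (2 ^ k) ^ 2 := by
    refine h6.trans ?_
    gcongr
  refine h8.trans ?_
  generalize B ^ ((1 : ℝ) / 6) = β at hB0
  generalize (2 : ℝ) ^ k = σ at hS
  generalize (K : ℝ) = κ at hK1
  calc 900000 * C * (7680 * κ * β) * κ * (4 * κ * σ ^ 2) * σ ^ 2
      = 3600000 * 7680 * C * (κ ^ 3 * σ ^ 4 * β) * 1 := by ring
    _ ≤ 3600000 * 7680 * C * (κ ^ 3 * σ ^ 4 * β) * κ :=
        mul_le_mul_of_nonneg_left hK1 (by positivity)
    _ = 3600000 * 7680 * C * κ ^ 4 * σ ^ 4 * β := by ring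

end Pool.Agent.Work.MP_916cc8_co.HO
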