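import Pool.Agent.Work.MP_916cc8_co.HO.Stmts
import Pool.Agent.Work.MP_916cc8_co.Final13

set_option autoImplicit false

/-! Item U: the general upper bound for ordered triples and any area. -/

namespace Pool.Agent.Work.MP_916cc8_co.HO

namespace AU

open scoped Classical in
/-- scaling -/
theorem card_tri_le (P : Finset (ℝ × ℝ)) (A c : ℝ) (hc : c ≠ 0) (hcA : c ^ 2 * A = 1) :
    (tri P A).card ≤ 27 * ((((P.image fun p => (c * p.1, c * p.2)).powersetCard 3).filter
      (fun t => ∃ p q r : ℝ × ℝ, t = {p, q, r} ∧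
        |Pool.Agent.Work.MP_916cc8_co.cr (q - p) (r - p)| / 2 = 1)).card) := by
  have hA : A ≠ 0 := by
    rintro rfl
    rw [mul_zero] at hcA
    exact one_ne_zero hcA.symm
  let φ : ℝ × ℝ → ℝ × ℝ := fun p => (c * p.1, c * p.2)
  have hφ : Function.Injective φ := by
    intro x y hxy
    have h1 := congrArg Prod.fst hxy
    have h2 := congrArg Prod.snd hxy
    exact Prod.ext (mul_left_cancel₀ hc h1) (mul_left_cancel₀ hc h2)
  let f : (ℝ × ℝ) × (ℝ × ℝ) × (ℝ × ℝ) → Finset (ℝ × ℝ) :=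
    fun t => {φ t.1, φ t.2.1, φ t.2.2}
  have harφ : ∀ p q r : ℝ × ℝ, Pool.Agent.Work.MP_916cc8_co.cr (φ q - φ p) (φ r - φ p) =
      c ^ 2 * ar p q r := by
    intro p q r
    simp only [Pool.Agent.Work.MP_916cc8_co.cr, φ, ar, Prod.fst_sub, Prod.snd_sub]
    ring
  refine Finset.card_le_mul_card_image_of_maps_to (f := f) ?_ 27 ?_
  · rintro ⟨p, q, r⟩ ht
    obtain ⟨h1, h2⟩ := Finset.mem_filter.1 ht
    rw [Finset.mem_product, Finset.mem_product] at h1
    obtain ⟨hp, hq, hr⟩ := h1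
    simp only at hp hq hr h2
    have hne : ar p q r ≠ 0 := by
      intro h0
      rw [h0, abs_zero] at h2
      apply hA
      linarith
    have hpq : p ≠ q := by
      rintro rfl
      apply hne
      unfold ar
      ring
    have hpr : p ≠ r := by
      rintro rfl
      apply hne
      unfold ar
      ring
    have hqr : q ≠ r := by
      rintro rfl
      apply hne
      unfold ar
      ring
    refine Finset.mem_filter.2 ⟨Finset.mem_powersetCard.2 ⟨?_, ?_⟩, φ p, φ q, φ r, rfl, ?_⟩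
    · intro x hx
      simp only [f, Finset.mem_insert, Finset.mem_singleton] at hx
      rcases hx with rfl | rfl | rfl
      · exact Finset.mem_image_of_mem _ hp
      · exact Finset.mem_image_of_mem _ hq
      · exact Finset.mem_image_of_mem _ hr
    · exact Finset.card_eq_three.2 ⟨φ p, φ q, φ r, fun h => hpq (hφ h), fun h => hpr (hφ h),
        fun h => hqr (hφ h), rfl⟩
    · rw [harφ, abs_mul, h2, abs_of_nonneg (sq_nonneg c)]
      linear_combination hcA
  · intro s hs
    have hs3 : s.card = 3 := (Finset.mem_powersetCard.1 (Finset.mem_filter.1 hs).1).2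
    have h1 : ((tri P A).filter fun x => f x = s).card ≤ (s ×ˢ s ×ˢ s).card := by
      refine Finset.card_le_card_of_injOn (fun t => (φ t.1, φ t.2.1, φ t.2.2)) ?_ ?_
      · rintro ⟨p, q, r⟩ ht
        have h2 := (Finset.mem_filter.1 (Finset.mem_coe.1 ht)).2
        refine Finset.mem_coe.2 ?_
        rw [← h2]
        simp only [f, Finset.mem_product, Finset.mem_insert, Finset.mem_singleton, true_or,
          or_true, and_self]
      · rintro ⟨p, q, r⟩ _ ⟨p', q', r'⟩ _ h
        simp only [Prod.mk.injEq] at h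
        rw [hφ h.1, hφ h.2.1, hφ h.2.2]
    rw [Finset.card_product, Finset.card_product, hs3] at h1
    omega

end AU

open AU in
open scoped Classical in
theorem I_U : St_U := by
  obtain ⟨C₀, hC₀⟩ := Pool.Agent.Work.MP_916cc8_co.main13_all
  refine ⟨27 * (|C₀| + 1), by positivity, fun P A hA => ?_⟩
  have hs : 0 < Real.sqrt A := Real.sqrt_pos.2 hA
  have h1 := card_tri_le P A (Real.sqrt A)⁻¹ (inv_ne_zero hs.ne') (by
    rw [inv_pow, Real.sq_sqrt hA.le, inv_mul_cancel₀ hA.ne'])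
  set P' := P.image fun p => ((Real.sqrt A)⁻¹ * p.1, (Real.sqrt A)⁻¹ * p.2) with hP'
  have hcard : P'.card ≤ P.card := Finset.card_image_le
  have h2 := hC₀ P'
  have h3 : ((tri P A).card : ℝ) ≤ 27 * (Pool.Agent.Work.MP_916cc8_co.uTri P' : ℝ) := by
    unfold Pool.Agent.Work.MP_916cc8_co.uTri
    exact_mod_cast h1
  have h4 : ((P'.card : ℝ)) ^ ((13 : ℝ) / 6) ≤ ((P.card : ℝ)) ^ ((13 : ℝ) / 6) :=
    Real.rpow_le_rpow (Nat.cast_nonneg _) (by exact_mod_cast hcard) (by norm_num)
  have h5 : 0 ≤ ((P'.card : ℝ)) ^ ((13 : ℝ) / 6) := Real.rpow_nonneg (Nat.cast_nonneg _) _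
  have h6 : C₀ * ((P'.card : ℝ)) ^ ((13 : ℝ) / 6) ≤ (|C₀| + 1) * ((P.card : ℝ)) ^ ((13 : ℝ) / 6) := by
    have h7 : C₀ ≤ |C₀| + 1 := by linarith [le_abs_self C₀]
    calc C₀ * ((P'.card : ℝ)) ^ ((13 : ℝ) / 6) ≤ (|C₀| + 1) * ((P'.card : ℝ)) ^ ((13 : ℝ) / 6) :=
          mul_le_mul_of_nonneg_right h7 h5
      _ ≤ _ := mul_le_mul_of_nonneg_left h4 (by positivity)
  nlinarith

end Pool.Agent.Work.MP_916cc8_co.HO
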