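import Pool.Agent.Work.MP_916cc8_co.HO.Stmts

/-!
# Item X: far triples
-/

set_option autoImplicit false

namespace Pool.Agent.Work.MP_916cc8_co.HO

open scoped Classical

namespace AX

/-- no large triangles in a box -/
theorem ar_le {S : ℝ} {P : Finset Pt} (hB : Box S P) {p q r : Pt} (hp : p ∈ P) (hq : q ∈ P)
    (hr : r ∈ P) : |ar p q r| ≤ 8 * S ^ 2 := by
  obtain ⟨p1, p2, p3, p4⟩ := hB p hp
  obtain ⟨q1, q2, q3, q4⟩ := hB q hq
  obtain ⟨r1, r2, r3, r4⟩ := hB r hr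
  have hS : 0 ≤ S := by linarith
  have h1 : |q.1 - p.1| ≤ 2 * S := abs_le.2 ⟨by linarith, by linarith⟩
  have h2 : |r.2 - p.2| ≤ 2 * S := abs_le.2 ⟨by linarith, by linarith⟩
  have h3 : |q.2 - p.2| ≤ 2 * S := abs_le.2 ⟨by linarith, by linarith⟩
  have h4 : |r.1 - p.1| ≤ 2 * S := abs_le.2 ⟨by linarith, by linarith⟩
  unfold ar
  calc |(q.1 - p.1) * (r.2 - p.2) - (q.2 - p.2) * (r.1 - p.1)|
      ≤ |(q.1 - p.1) * (r.2 - p.2)| + |(q.2 - p.2) * (r.1 - p.1)| := abs_sub _ _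
    _ = |q.1 - p.1| * |r.2 - p.2| + |q.2 - p.2| * |r.1 - p.1| := by rw [abs_mul, abs_mul]
    _ ≤ (2 * S) * (2 * S) + (2 * S) * (2 * S) :=
        add_le_add (mul_le_mul h1 h2 (abs_nonneg _) (by linarith))
          (mul_le_mul h3 h4 (abs_nonneg _) (by linarith))
    _ = 8 * S ^ 2 := by ring

theorem triX_empty {S A : ℝ} {P : Finset Pt} (hB : Box S P) (hA : 4 * S ^ 2 < A) :
    triX S P A = ∅ := by
  rw [Finset.eq_empty_iff_forall_notMem]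
  intro t ht
  unfold triX tri at ht
  rw [Finset.mem_filter, Finset.mem_filter, Finset.mem_product, Finset.mem_product] at ht
  obtain ⟨⟨⟨h1, h2, h3⟩, h4⟩, _⟩ := ht
  have h5 := ar_le hB h1 h2 h3
  rw [h4] at h5
  linarith

end AX

open AX in
theorem I_X (hT1 : St_T1) (hT2 : St_T2) : St_X := by
  obtain ⟨C1, hC1, H1⟩ := hT1
  obtain ⟨C2, hC2, H2⟩ := hT2
  refine ⟨C1 + C2, by linarith, ?_⟩
  intro K k P hK hc hb A hA
  have hS : (1 : ℝ) ≤ 2 ^ k := one_le_pow₀ (by norm_num)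
  have hpos : (0 : ℝ) ≤ (K : ℝ) ^ 4 * (2 ^ k) ^ 4 := by positivity
  have hA1 : (1 : ℝ) ≤ (1 + A) ^ ((1 : ℝ) / 6) := Real.one_le_rpow (by linarith) (by norm_num)
  have hk : (1 : ℝ) ≤ ((k : ℝ) + 2) ^ 2 := by
    have : (0 : ℝ) ≤ k := Nat.cast_nonneg k
    nlinarith
  by_cases hBS : max A 1 ≤ 4 * (2 ^ k) ^ 2
  · have h1 := H1 K k P hK hc hb A (max A 1) hA (le_max_left _ _) (le_max_right _ _)
    have h2 := H2 K k P hK hc hb A (max A 1) hA (le_max_left _ _) (le_max_right _ _) hBS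
    have h3 : ((triX (2 ^ k) P A).card : ℝ) =
        (((triX (2 ^ k) P A).filter fun t =>
          7680 * K * (max A 1) ≤ F P (8 * (max A 1) / 2 ^ k) (sl t.1 t.2.1) (ic t.1 t.2.1)).card : ℝ) +
        (((triX (2 ^ k) P A).filter fun t =>
          ¬ 7680 * K * (max A 1) ≤
            F P (8 * (max A 1) / 2 ^ k) (sl t.1 t.2.1) (ic t.1 t.2.1)).card : ℝ) := by
      rw [← Nat.cast_add, Finset.card_filter_add_card_filter_not]
    have h4 : (max A 1) ^ ((1 : ℝ) / 6) ≤ (1 + A) ^ ((1 : ℝ) / 6) :=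
      Real.rpow_le_rpow (by positivity) (max_le (by linarith) (by linarith)) (by norm_num)
    rw [h3]
    have h5 : C1 * K ^ 4 * (2 ^ k) ^ 4 * (k + 2) ^ 2 ≤
        C1 * K ^ 4 * (2 ^ k) ^ 4 * (k + 2) ^ 2 * (1 + A) ^ ((1 : ℝ) / 6) :=
      le_mul_of_one_le_right (by positivity) hA1
    have h6 : C2 * K ^ 4 * (2 ^ k) ^ 4 * (max A 1) ^ ((1 : ℝ) / 6) ≤
        C2 * K ^ 4 * (2 ^ k) ^ 4 * (k + 2) ^ 2 * (1 + A) ^ ((1 : ℝ) / 6) := by
      refine mul_le_mul ?_ h4 (by positivity) (by positivity)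
      exact le_mul_of_one_le_right (by positivity) hk
    calc _ ≤ C1 * K ^ 4 * (2 ^ k) ^ 4 * (k + 2) ^ 2 +
          C2 * K ^ 4 * (2 ^ k) ^ 4 * (max A 1) ^ ((1 : ℝ) / 6) := add_le_add h1 h2
      _ ≤ C1 * K ^ 4 * (2 ^ k) ^ 4 * (k + 2) ^ 2 * (1 + A) ^ ((1 : ℝ) / 6) +
          C2 * K ^ 4 * (2 ^ k) ^ 4 * (k + 2) ^ 2 * (1 + A) ^ ((1 : ℝ) / 6) := add_le_add h5 h6
      _ = _ := by ring
  · have h1 : 4 * (2 ^ k : ℝ) ^ 2 < A := by
      rcases lt_max_iff.1 (not_le.1 hBS) with h | h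
      · exact h
      · exfalso
        have : (1 : ℝ) ≤ (2 ^ k) ^ 2 := one_le_pow₀ hS
        linarith
    rw [triX_empty hb h1, Finset.card_empty, Nat.cast_zero]
    positivity

end Pool.Agent.Work.MP_916cc8_co.HO
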