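import Pool.Agent.Work.MP_916cc8_co.HO.Stmts

/-!
# Unit area triangles in homogeneous sets: integrals over the slope, one term
-/

set_option autoImplicit false

namespace Pool.Agent.Work.MP_916cc8_co.HO

open MeasureTheory

namespace Aa0

/-- the integral of a nonnegative continuous function below `c` on an interval -/
lemma bound (f : ℝ → ℝ) (hf : Continuous f) (c u v : ℝ) (huv : u ≤ v) (h0 : ∀ a, 0 ≤ f a)
    (h1 : ∀ a, f a ≤ c) (h2 : ∀ a, a < u ∨ v < a → f a = 0) :
    Integrable f ∧ 0 ≤ ∫ a, f a ∧ ∫ a, f a ≤ c * (v - u) := by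
  have hg : Integrable (Set.indicator (Set.Icc u v) fun _ => c) := by
    rw [integrable_indicator_iff measurableSet_Icc]
    exact integrableOn_const (by simp) (by simp)
  have hle : ∀ a, f a ≤ Set.indicator (Set.Icc u v) (fun _ => c) a := by
    intro a
    by_cases ha : a ∈ Set.Icc u v
    · rw [Set.indicator_of_mem ha]
      exact h1 a
    · rw [Set.indicator_of_notMem ha]
      have : a < u ∨ v < a := by
        rw [Set.mem_Icc, not_and_or, not_le, not_le] at ha
        exact ha
      rw [h2 a this]
  have hfi : Integrable f := by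
    refine hg.mono' hf.aestronglyMeasurable (Filter.Eventually.of_forall fun a => ?_)
    rw [Real.norm_eq_abs, abs_of_nonneg (h0 a)]
    exact hle a
  refine ⟨hfi, integral_nonneg h0, ?_⟩
  calc ∫ a, f a ≤ ∫ a, Set.indicator (Set.Icc u v) (fun _ => c) a := integral_mono hfi hg hle
    _ = c * (v - u) := by
        rw [integral_indicator measurableSet_Icc, setIntegral_const, smul_eq_mul,
          Measure.real, Real.volume_Icc, ENNReal.toReal_ofReal (by linarith), mul_comm]

lemma om_nonneg (a : ℝ) : 0 ≤ om a := le_max_left _ _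

lemma om_le (a : ℝ) : om a ≤ 1 := max_le zero_le_one (min_le_left _ _)

lemma om_zero (a : ℝ) (h : 6 ≤ |a|) : om a = 0 := by
  unfold om
  exact max_eq_left ((min_le_right _ _).trans (by linarith))

lemma tau_nonneg (h z : ℝ) : 0 ≤ tau h z := le_max_left _ _

lemma tau_le (h z : ℝ) (hh : 0 < h) : tau h z ≤ 2 * h :=
  max_le (by linarith) (by linarith [abs_nonneg z])

lemma tau_zero (h z : ℝ) (hz : 2 * h ≤ |z|) : tau h z = 0 := max_eq_left (by linarith)

lemma cont (p q : Pt) (h t : ℝ) : Continuous fun a : ℝ => om a * tau h (zz p q a + t) := by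
  unfold om tau zz
  fun_prop

lemma nonneg (p q : Pt) (h t a : ℝ) : 0 ≤ om a * tau h (zz p q a + t) :=
  mul_nonneg (om_nonneg _) (tau_nonneg _ _)

lemma le2 (p q : Pt) (h t a : ℝ) (hh : 0 < h) : om a * tau h (zz p q a + t) ≤ 2 * h := by
  have h1 := om_le a
  have h2 := om_nonneg a
  have h3 := tau_le h (zz p q a + t) hh
  have h4 := tau_nonneg h (zz p q a + t)
  nlinarith

end Aa0

theorem I_a0 : St_a0 := by
  intro p q h t hh
  have := Aa0.bound _ (Aa0.cont p q h t) (2 * h) (-6) 6 (by norm_num) (Aa0.nonneg p q h t)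
    (fun a => Aa0.le2 p q h t a hh) (by
      intro a ha
      rw [Aa0.om_zero a, zero_mul]
      rcases ha with ha | ha
      · rw [abs_of_neg (by linarith)]
        linarith
      · rw [abs_of_pos (by linarith)]
        linarith)
  refine ⟨this.1, this.2.1, this.2.2.trans (by linarith)⟩

theorem I_a1 : St_a1 := by
  intro p q h hh hd
  have hc := Aa0.cont p q h 0
  have hn := Aa0.nonneg p q h 0
  have hl := fun a => Aa0.le2 p q h 0 a hh
  have h24 := (I_a0 p q h 0 hh).2.2
  simp only [add_zero] at hc hn hl h24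
  by_cases hD : ds p q / 8 ≤ |p.1 - q.1|
  · have hD0 : 0 < |p.1 - q.1| := by linarith
    have hne : p.1 - q.1 ≠ 0 := abs_pos.1 hD0
    have h1 := Aa0.bound _ hc (2 * h) ((p.2 - q.2) / (p.1 - q.1) - 2 * h / |p.1 - q.1|)
      ((p.2 - q.2) / (p.1 - q.1) + 2 * h / |p.1 - q.1|) (by
        have : 0 ≤ 2 * h / |p.1 - q.1| := by positivity
        linarith) hn hl (by
        intro a ha
        rw [Aa0.tau_zero, mul_zero]
        have h2 : zz p q a = ((p.2 - q.2) / (p.1 - q.1) - a) * (p.1 - q.1) := by
          unfold zz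
          field_simp
        rw [h2, abs_mul]
        have h3 : 2 * h / |p.1 - q.1| ≤ |(p.2 - q.2) / (p.1 - q.1) - a| := by
          rcases ha with ha | ha
          · exact (by linarith : _ ≤ (p.2 - q.2) / (p.1 - q.1) - a).trans (le_abs_self _)
          · exact (by linarith : _ ≤ -((p.2 - q.2) / (p.1 - q.1) - a)).trans (neg_le_abs _)
        rwa [div_le_iff₀ hD0] at h3)
    refine h1.2.2.trans ?_
    rw [le_div_iff₀ hd]
    have h3 : 2 * h * ((p.2 - q.2) / (p.1 - q.1) + 2 * h / |p.1 - q.1| -
        ((p.2 - q.2) / (p.1 - q.1) - 2 * h / |p.1 - q.1|)) * ds p q =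
        8 * h ^ 2 * (ds p q / |p.1 - q.1|) := by
      ring
    have h4 : ds p q / |p.1 - q.1| ≤ 8 := by
      rw [div_le_iff₀ hD0]
      linarith
    rw [h3]
    nlinarith [sq_nonneg h]
  · rw [not_le] at hD
    have hd2 : ds p q = |p.2 - q.2| := by
      unfold ds at hD hd ⊢
      rcases max_choice |p.1 - q.1| |p.2 - q.2| with h1 | h1
      · rw [h1] at hD hd
        linarith
      · exact h1
    by_cases h8 : 8 * h ≤ ds p q
    · have h0 : ∀ a : ℝ, om a * tau h (zz p q a) = 0 := by
        intro a
        by_cases ha : 6 ≤ |a|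
        · rw [Aa0.om_zero a ha, zero_mul]
        · rw [not_le] at ha
          rw [Aa0.tau_zero, mul_zero]
          have h1 : |p.2 - q.2| ≤ |zz p q a| + |a * (p.1 - q.1)| := by
            have h2 : p.2 - q.2 = zz p q a + a * (p.1 - q.1) := by
              unfold zz
              ring
            calc |p.2 - q.2| = |zz p q a + a * (p.1 - q.1)| := by rw [← h2]
              _ ≤ _ := abs_add_le _ _
          rw [abs_mul] at h1
          have h3 : |a| * |p.1 - q.1| ≤ 6 * (ds p q / 8) :=
            mul_le_mul ha.le hD.le (abs_nonneg _) (by norm_num)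
          linarith
      have h1 : ∫ a : ℝ, om a * tau h (zz p q a) = 0 := by
        simp only [h0, integral_zero]
      rw [h1]
      positivity
    · rw [not_le] at h8
      refine h24.trans ?_
      rw [le_div_iff₀ hd]
      nlinarith

end Pool.Agent.Work.MP_916cc8_co.HO
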