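import Pool.Agent.Work.MP_916cc8_co.HO.Stmts

set_option autoImplicit false

namespace Pool.Agent.Work.MP_916cc8_co.HO

open MeasureTheory

namespace Aa2

lemma om_zero {a : ℝ} (ha : 6 ≤ |a|) : om a = 0 := by
  unfold om
  apply max_eq_left
  exact (min_le_right _ _).trans (by linarith)

lemma om_nonneg (a : ℝ) : 0 ≤ om a := le_max_left _ _

lemma tau_nonneg (h z : ℝ) : 0 ≤ tau h z := le_max_left _ _

lemma tau_zero {h z : ℝ} (hz : 2 * h ≤ |z|) : tau h z = 0 := by
  unfold tau
  apply max_eq_left
  linarith

lemma tau_le {h : ℝ} (hh : 0 ≤ h) (z : ℝ) : tau h z ≤ 2 * h := by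
  unfold tau
  apply max_le (by linarith)
  have := abs_nonneg z
  linarith

lemma om_lip (a b : ℝ) : om a - om b ≤ |b - a| := by
  have h1 : |b| - |a| ≤ |b - a| := abs_sub_abs_le_abs_sub b a
  have h0 := abs_nonneg (b - a)
  unfold om
  rw [sub_le_iff_le_add]
  apply max_le
  · have := le_max_left 0 (min 1 (6 - |b|))
    linarith
  · rcases min_cases 1 (6 - |b|) with ⟨h2, _⟩ | ⟨h2, _⟩
    · have h3 := min_le_left 1 (6 - |a|)
      have h4 := le_max_right 0 (min 1 (6 - |b|))
      rw [h2] at h4
      rw [h2]
      linarith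
    · have h3 := min_le_right 1 (6 - |a|)
      have h4 := le_max_right 0 (min 1 (6 - |b|))
      rw [h2] at h4
      rw [h2]
      linarith

end Aa2

open Aa2

theorem I_a2 (ha0 : St_a0) : St_a2 := by
  intro p q h t hh hh8 ht ht1 hd
  obtain ⟨d, hdd⟩ : ∃ d, d = ds p q := ⟨_, rfl⟩
  rw [← hdd] at hd ⊢
  obtain ⟨D, hD⟩ : ∃ D, D = p.1 - q.1 := ⟨_, rfl⟩
  obtain ⟨e, he⟩ : ∃ e, e = p.2 - q.2 := ⟨_, rfl⟩
  have hds : d = max |D| |e| := by rw [hdd, hD, he]; rfl
  have hzz : ∀ a, zz p q a = e - a * D := fun a => by rw [hD, he]; rfl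
  have hRHS : 0 ≤ 512 * h ^ 2 / d ^ 2 := by positivity
  by_cases hc : |D| < d / 8
  · refine le_trans (integral_nonpos (fun a => ?_)) hRHS
    have h1 : om a * tau h (zz p q a) = 0 := by
      by_cases ha : 6 ≤ |a|
      · rw [om_zero ha, zero_mul]
      · push Not at ha
        rw [tau_zero, mul_zero]
        have h2 : d = |e| := by
          rcases max_cases |D| |e| with ⟨h3, _⟩ | ⟨h3, _⟩
          · rw [h3] at hds
            rw [hds] at hc
            have := abs_nonneg D
            linarith
          · rw [hds, h3]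
        have h3 : |e| - |a * D| ≤ |e - a * D| := abs_sub_abs_le_abs_sub _ _
        have h4 : |a * D| ≤ 6 * (d / 8) := by
          rw [abs_mul]
          exact mul_le_mul ha.le hc.le (abs_nonneg _) (by norm_num)
        rw [hzz]
        linarith
    have h2 := mul_nonneg (om_nonneg a) (tau_nonneg h (zz p q a + t))
    simp only [Pi.zero_apply]
    linarith
  · push Not at hc
    have hD0 : D ≠ 0 := by
      rintro rfl
      rw [abs_zero] at hc
      linarith
    have hDpos : 0 < |D| := abs_pos.2 hD0
    obtain ⟨I0, -, -⟩ := ha0 p q h 0 hh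
    obtain ⟨It, -, -⟩ := ha0 p q h t hh
    simp only [add_zero] at I0
    have hshift : ∀ a, zz p q (a + t / D) + t = zz p q a := by
      intro a
      rw [hzz, hzz]
      field_simp
      ring
    have hIt' : Integrable (fun a : ℝ => om (a + t / D) * tau h (zz p q a)) := by
      have := It.comp_add_right (t / D)
      simpa only [hshift] using this
    have hint : ∫ a : ℝ, om a * tau h (zz p q a + t) =
        ∫ a : ℝ, om (a + t / D) * tau h (zz p q a) := by
      have := integral_add_right_eq_self (μ := volume)
        (fun a : ℝ => om a * tau h (zz p q a + t)) (t / D)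
      rw [← this]
      simp only [hshift]
    rw [integral_sub I0 It, hint, ← integral_sub I0 hIt']
    have hbd : ∀ a : ℝ, om a * tau h (zz p q a) - om (a + t / D) * tau h (zz p q a) ≤
        (Set.Icc (e / D - 2 * h / |D|) (e / D + 2 * h / |D|)).indicator
          (fun _ => t / |D| * (2 * h)) a := by
      intro a
      by_cases ha : a ∈ Set.Icc (e / D - 2 * h / |D|) (e / D + 2 * h / |D|)
      · rw [Set.indicator_of_mem ha, ← sub_mul]
        have h1 : om a - om (a + t / D) ≤ t / |D| := by
          refine (om_lip a (a + t / D)).trans (le_of_eq ?_)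
          rw [add_sub_cancel_left, abs_div, abs_of_nonneg ht]
        calc (om a - om (a + t / D)) * tau h (zz p q a) ≤ t / |D| * tau h (zz p q a) :=
              mul_le_mul_of_nonneg_right h1 (tau_nonneg _ _)
          _ ≤ t / |D| * (2 * h) := mul_le_mul_of_nonneg_left (tau_le hh.le _) (by positivity)
      · rw [Set.indicator_of_notMem ha, tau_zero, mul_zero, mul_zero, sub_zero]
        rw [hzz]
        have h1 : e - a * D = (e / D - a) * D := by field_simp
        rw [h1, abs_mul]
        have h2 : 2 * h / |D| ≤ |e / D - a| := by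
          by_contra hcon
          push Not at hcon
          rw [abs_lt] at hcon
          apply ha
          constructor <;> linarith [hcon.1, hcon.2]
        rwa [div_le_iff₀ hDpos] at h2
    have hgi : Integrable ((Set.Icc (e / D - 2 * h / |D|) (e / D + 2 * h / |D|)).indicator
        (fun _ : ℝ => t / |D| * (2 * h))) := by
      refine (integrableOn_const ?_).integrable_indicator measurableSet_Icc
      rw [Real.volume_Icc]
      exact ENNReal.ofReal_ne_top
    refine (integral_mono (I0.sub hIt') hgi hbd).trans ?_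
    rw [integral_indicator measurableSet_Icc, setIntegral_const, Measure.real, Real.volume_Icc,
      ENNReal.toReal_ofReal (by
        have : 0 ≤ 2 * h / |D| := by positivity
        linarith), smul_eq_mul]
    have h1 : (e / D + 2 * h / |D| - (e / D - 2 * h / |D|)) * (t / |D| * (2 * h)) =
        8 * h ^ 2 * t / |D| ^ 2 := by
      field_simp
      ring
    rw [h1, div_le_div_iff₀ (by positivity) (by positivity)]
    have h2 : d ^ 2 ≤ 64 * |D| ^ 2 := by nlinarith
    calc 8 * h ^ 2 * t * d ^ 2 ≤ 8 * h ^ 2 * 1 * (64 * |D| ^ 2) := by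
          apply mul_le_mul _ h2 (by positivity) (by positivity)
          exact mul_le_mul_of_nonneg_left ht1 (by positivity)
      _ = 512 * h ^ 2 * |D| ^ 2 := by ring

end Pool.Agent.Work.MP_916cc8_co.HO
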