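import Pool.Agent.Work.MP_916cc8_co.HO.Stmts

/-!
# Homogeneous sets, item bint: integrals over the intercept
-/

set_option autoImplicit false

namespace Pool.Agent.Work.MP_916cc8_co.HO

open MeasureTheory

open scoped Classical

namespace Abint

/-- indicator of the interval of centre `c` and half-length `h` -/
noncomputable def chi (h c b : ℝ) : ℝ := if |c - b| ≤ h then 1 else 0

theorem F_eq (P : Finset Pt) (h a b : ℝ) :
    (F P h a b : ℝ) = ∑ p ∈ P, chi h (p.2 - a * p.1) b := by
  unfold F chi
  rw [Finset.card_filter]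
  push_cast
  rfl

theorem chi_shift (h c b t : ℝ) : chi h c (b + t) = chi h (c - t) b := by
  unfold chi
  rw [show c - (b + t) = c - t - b by ring]

theorem chi_mul (h c c' b : ℝ) : chi h c b * chi h c' b =
    (Set.Icc (max (c - h) (c' - h)) (min (c + h) (c' + h))).indicator 1 b := by
  have key : ∀ x : ℝ, |x - b| ≤ h ↔ b ∈ Set.Icc (x - h) (x + h) := by
    intro x
    rw [abs_le, Set.mem_Icc]
    constructor
    · rintro ⟨h1, h2⟩
      constructor <;> linarith
    · rintro ⟨h1, h2⟩
      constructor <;> linarith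
  have e : Set.Icc (max (c - h) (c' - h)) (min (c + h) (c' + h)) =
      Set.Icc (c - h) (c + h) ∩ Set.Icc (c' - h) (c' + h) := by
    rw [Set.Icc_inter_Icc]
  rw [e]
  unfold chi
  by_cases h1 : |c - b| ≤ h
  · by_cases h2 : |c' - b| ≤ h
    · have h3 : b ∈ Set.Icc (c - h) (c + h) ∩ Set.Icc (c' - h) (c' + h) :=
        ⟨(key c).mp h1, (key c').mp h2⟩
      rw [if_pos h1, if_pos h2, Set.indicator_of_mem h3]
      simp
    · rw [if_pos h1, if_neg h2, Set.indicator_of_notMem fun h3 => h2 ((key c').mpr h3.2)]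
      simp
  · rw [if_neg h1, Set.indicator_of_notMem fun h3 => h1 ((key c).mpr h3.1)]
    simp

theorem len (h c c' : ℝ) : max (min (c + h) (c' + h) - max (c - h) (c' - h)) 0 =
    tau h (c - c') := by
  unfold tau
  rw [max_comm]
  congr 1
  rcases le_total c c' with h1 | h1
  · rw [min_eq_left (by linarith), max_eq_right (by linarith), abs_of_nonpos (by linarith)]
    ring
  · rw [min_eq_right (by linarith), max_eq_left (by linarith), abs_of_nonneg (by linarith)]
    ring

theorem int_mul (h c c' : ℝ) : Integrable (fun b : ℝ => chi h c b * chi h c' b) ∧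
    ∫ b : ℝ, chi h c b * chi h c' b = tau h (c - c') := by
  have e : (fun b : ℝ => chi h c b * chi h c' b) =
      (Set.Icc (max (c - h) (c' - h)) (min (c + h) (c' + h))).indicator 1 := by
    funext b
    exact chi_mul h c c' b
  rw [e]
  constructor
  · rw [integrable_indicator_iff measurableSet_Icc]
    exact (continuous_const (y := (1 : ℝ))).continuousOn.integrableOn_Icc
  · rw [integral_indicator_one measurableSet_Icc, Real.volume_real_Icc, len]

/-- the integral of a product of two sums -/
theorem int_sum {ι : Type} (P : Finset ι) (f : ι → ℝ → ℝ) (T : ι → ι → ℝ)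
    (h : ∀ p ∈ P, ∀ q ∈ P, Integrable (fun b : ℝ => f p b * f q b) ∧
      ∫ b : ℝ, f p b * f q b = T p q) :
    Integrable (fun b : ℝ => (∑ p ∈ P, f p b) ^ 2) ∧
      ∫ b : ℝ, (∑ p ∈ P, f p b) ^ 2 = ∑ p ∈ P, ∑ q ∈ P, T p q := by
  have e : (fun b : ℝ => (∑ p ∈ P, f p b) ^ 2) =
      fun b : ℝ => ∑ p ∈ P, ∑ q ∈ P, f p b * f q b := by
    funext b
    rw [sq, Finset.sum_mul_sum]
  rw [e]
  have h1 : ∀ p ∈ P, Integrable (fun b : ℝ => ∑ q ∈ P, f p b * f q b) := fun p hp =>
    integrable_finsetSum P fun q hq => (h p hp q hq).1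
  refine ⟨integrable_finsetSum P h1, ?_⟩
  rw [integral_finsetSum P h1]
  refine Finset.sum_congr rfl fun p hp => ?_
  rw [integral_finsetSum P fun q hq => (h p hp q hq).1]
  exact Finset.sum_congr rfl fun q hq => (h p hp q hq).2

theorem tau_neg (h z : ℝ) : tau h (-z) = tau h z := by
  unfold tau
  rw [abs_neg]

theorem zz_eq (p q : Pt) (a : ℝ) : zz p q a = (p.2 - a * p.1) - (q.2 - a * q.1) := by
  unfold zz
  ring

end Abint

open Abint

theorem I_bint : St_bint := by
  intro P h a _
  have e : (fun b : ℝ => (F P h a b : ℝ) ^ 2) =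
      fun b : ℝ => (∑ p ∈ P, chi h (p.2 - a * p.1) b) ^ 2 := by
    funext b
    rw [F_eq]
  rw [e]
  refine int_sum P (fun p b => chi h (p.2 - a * p.1) b) (fun p q => tau h (zz p q a))
    fun p _ q _ => ?_
  have := int_mul h (p.2 - a * p.1) (q.2 - a * q.1)
  rw [← zz_eq] at this
  exact this

theorem I_bdiff : St_bdiff := by
  intro P h a t _
  have e : (fun b : ℝ => ((F P h a b : ℝ) - F P h a (b + t)) ^ 2) =
      fun b : ℝ => (∑ p ∈ P, (chi h (p.2 - a * p.1) b - chi h (p.2 - a * p.1 - t) b)) ^ 2 := by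
    funext b
    rw [F_eq, F_eq, ← Finset.sum_sub_distrib]
    congr 1
    refine Finset.sum_congr rfl fun p _ => ?_
    rw [chi_shift]
  rw [e]
  have hmain := int_sum P (fun p b => chi h (p.2 - a * p.1) b - chi h (p.2 - a * p.1 - t) b)
    (fun p q => 2 * tau h (zz p q a) - tau h (zz p q a + t) - tau h (zz p q a - t)) ?_
  · refine ⟨hmain.1, hmain.2.trans ?_⟩
    have hsw : ∑ p ∈ P, ∑ q ∈ P, tau h (zz p q a - t) =
        ∑ p ∈ P, ∑ q ∈ P, tau h (zz p q a + t) := by
      rw [Finset.sum_comm]
      refine Finset.sum_congr rfl fun p _ => Finset.sum_congr rfl fun q _ => ?_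
      rw [← tau_neg]
      congr 1
      unfold zz
      ring
    simp only [Finset.sum_sub_distrib, ← Finset.mul_sum]
    rw [hsw]
    ring
  · intro p _ q _
    set u := p.2 - a * p.1 with hu
    set v := q.2 - a * q.1 with hv
    have hz : zz p q a = u - v := zz_eq p q a
    have h1 := int_mul h u v
    have h2 := int_mul h u (v - t)
    have h3 := int_mul h (u - t) v
    have h4 := int_mul h (u - t) (v - t)
    have e2 : (fun b : ℝ => (chi h u b - chi h (u - t) b) * (chi h v b - chi h (v - t) b)) =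
        fun b : ℝ => (chi h u b * chi h v b - chi h u b * chi h (v - t) b) -
          (chi h (u - t) b * chi h v b - chi h (u - t) b * chi h (v - t) b) := by
      funext b
      ring
    rw [e2]
    refine ⟨(h1.1.sub h2.1).sub (h3.1.sub h4.1), ?_⟩
    have i1 := integral_sub (h1.1.sub h2.1) (h3.1.sub h4.1)
    simp only [Pi.sub_apply] at i1
    rw [i1, integral_sub h1.1 h2.1, integral_sub h3.1 h4.1, h1.2, h2.2, h3.2, h4.2, hz,
      show u - (v - t) = u - v + t by ring, show u - t - v = u - v - t by ring,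
      show u - t - (v - t) = u - v by ring]
    ring

end Pool.Agent.Work.MP_916cc8_co.HO
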