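import Pool.Agent.Work.MP_916cc8_co.HO.Stmts

/-!
# Items col and rect: points in one column, points in a rectangle
-/

set_option autoImplicit false

namespace Pool.Agent.Work.MP_916cc8_co.HO

namespace Acol

/-- number of integers in `Icc ⌊y⌋ ⌊y + Y⌋` -/
theorem card_rows (y Y : ℝ) (hY : 0 ≤ Y) :
    ((Finset.Icc ⌊y⌋ ⌊y + Y⌋).card : ℝ) ≤ Y + 2 := by
  rw [Int.card_Icc]
  have hle : ⌊y⌋ ≤ ⌊y + Y⌋ := Int.floor_le_floor (by linarith)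
  have h3 : (((⌊y + Y⌋ + 1 - ⌊y⌋).toNat : ℤ) : ℝ) = ((⌊y + Y⌋ + 1 - ⌊y⌋ : ℤ) : ℝ) := by
    rw [Int.toNat_of_nonneg (by linarith)]
  have h4 : (((⌊y + Y⌋ + 1 - ⌊y⌋).toNat : ℕ) : ℝ) = ((⌊y + Y⌋ + 1 - ⌊y⌋ : ℤ) : ℝ) := by
    rw [← h3]; norm_cast
  rw [h4]
  push_cast
  have h5 := Int.floor_le (y + Y)
  have h6 := Int.lt_floor_add_one y
  linarith

end Acol

theorem I_col : St_col := by
  classical
  intro K P hC i y Y hY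
  have hsub : (P.filter fun p => ⌊p.1⌋ = i ∧ y ≤ p.2 ∧ p.2 ≤ y + Y) ⊆
      (Finset.Icc ⌊y⌋ ⌊y + Y⌋).biUnion
        (fun j => P.filter fun p => ⌊p.1⌋ = i ∧ ⌊p.2⌋ = j) := by
    intro p hp
    simp only [Finset.mem_filter, Finset.mem_biUnion, Finset.mem_Icc] at hp ⊢
    obtain ⟨hpP, hi, h1, h2⟩ := hp
    exact ⟨⌊p.2⌋, ⟨Int.floor_le_floor h1, Int.floor_le_floor h2⟩, hpP, hi, rfl⟩
  have h1 : (P.filter fun p => ⌊p.1⌋ = i ∧ y ≤ p.2 ∧ p.2 ≤ y + Y).card ≤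
      (Finset.Icc ⌊y⌋ ⌊y + Y⌋).card * K := by
    refine (Finset.card_le_card hsub).trans ?_
    exact Finset.card_biUnion_le_card_mul _ _ _ (fun j _ => hC i j)
  have h2 := Acol.card_rows y Y hY
  calc ((P.filter fun p => ⌊p.1⌋ = i ∧ y ≤ p.2 ∧ p.2 ≤ y + Y).card : ℝ)
      ≤ (((Finset.Icc ⌊y⌋ ⌊y + Y⌋).card * K : ℕ) : ℝ) := by exact_mod_cast h1
    _ = ((Finset.Icc ⌊y⌋ ⌊y + Y⌋).card : ℝ) * K := by push_cast; ring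
    _ ≤ (Y + 2) * K := mul_le_mul_of_nonneg_right h2 (Nat.cast_nonneg K)
    _ = K * (Y + 2) := by ring

theorem I_rect : St_rect := by
  classical
  intro K P hC x y X Y hX hY
  have hsub : (P.filter fun p => (x ≤ p.1 ∧ p.1 ≤ x + X) ∧ y ≤ p.2 ∧ p.2 ≤ y + Y) ⊆
      (Finset.Icc ⌊x⌋ ⌊x + X⌋).biUnion
        (fun i => P.filter fun p => ⌊p.1⌋ = i ∧ y ≤ p.2 ∧ p.2 ≤ y + Y) := by
    intro p hp
    simp only [Finset.mem_filter, Finset.mem_biUnion, Finset.mem_Icc] at hp ⊢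
    obtain ⟨hpP, ⟨hx1, hx2⟩, h1, h2⟩ := hp
    exact ⟨⌊p.1⌋, ⟨Int.floor_le_floor hx1, Int.floor_le_floor hx2⟩, hpP, rfl, h1, h2⟩
  have h1 : ((P.filter fun p => (x ≤ p.1 ∧ p.1 ≤ x + X) ∧ y ≤ p.2 ∧ p.2 ≤ y + Y).card : ℝ) ≤
      ∑ i ∈ Finset.Icc ⌊x⌋ ⌊x + X⌋,
        ((P.filter fun p => ⌊p.1⌋ = i ∧ y ≤ p.2 ∧ p.2 ≤ y + Y).card : ℝ) := by
    exact_mod_cast (Finset.card_le_card hsub).trans Finset.card_biUnion_le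
  have h2 : (∑ i ∈ Finset.Icc ⌊x⌋ ⌊x + X⌋,
        ((P.filter fun p => ⌊p.1⌋ = i ∧ y ≤ p.2 ∧ p.2 ≤ y + Y).card : ℝ)) ≤
      ((Finset.Icc ⌊x⌋ ⌊x + X⌋).card : ℝ) * (K * (Y + 2)) := by
    rw [← nsmul_eq_mul]
    exact Finset.sum_le_card_nsmul _ _ _ (fun i _ => I_col K P hC i y Y hY)
  have h3 : ((Finset.Icc ⌊x⌋ ⌊x + X⌋).card : ℝ) * (K * (Y + 2)) ≤
      (X + 2) * (K * (Y + 2)) :=
    mul_le_mul_of_nonneg_right (Acol.card_rows x X hX) (by positivity)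
  calc ((P.filter fun p => (x ≤ p.1 ∧ p.1 ≤ x + X) ∧ y ≤ p.2 ∧ p.2 ≤ y + Y).card : ℝ)
      ≤ (X + 2) * (K * (Y + 2)) := (h1.trans h2).trans h3
    _ = K * (X + 2) * (Y + 2) := by ring

end Pool.Agent.Work.MP_916cc8_co.HO
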