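import Pool.Agent.Work.MP_916cc8_co.HO.Stmts

set_option autoImplicit false

/-!
# All triples of large diameter
-/

namespace Pool.Agent.Work.MP_916cc8_co.HO

open MeasureTheory

open scoped Classical

namespace Adiam

/-- The union of the images under the six permutations. -/
noncomputable def U6 (T : Finset (Pt × Pt × Pt)) : Finset (Pt × Pt × Pt) :=
  T.image (fun s => (s.1, s.2.1, s.2.2)) ∪ (T.image (fun s => (s.2.1, s.1, s.2.2)) ∪
    (T.image (fun s => (s.1, s.2.2, s.2.1)) ∪ (T.image (fun s => (s.2.1, s.2.2, s.1)) ∪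
      (T.image (fun s => (s.2.2, s.1, s.2.1)) ∪ T.image (fun s => (s.2.2, s.2.1, s.1))))))

lemma card_U6 (T : Finset (Pt × Pt × Pt)) : (U6 T).card ≤ 6 * T.card := by
  unfold U6
  have h : ∀ f : Pt × Pt × Pt → Pt × Pt × Pt, (T.image f).card ≤ T.card :=
    fun f => Finset.card_image_le
  refine (Finset.card_union_le _ _).trans ?_
  refine (Nat.add_le_add (h _) ((Finset.card_union_le _ _).trans (Nat.add_le_add (h _)
    ((Finset.card_union_le _ _).trans (Nat.add_le_add (h _) ((Finset.card_union_le _ _).trans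
    (Nat.add_le_add (h _) ((Finset.card_union_le _ _).trans (Nat.add_le_add (h _) (h _)))))))))).trans
    ?_
  omega

lemma mem_tri {P : Finset Pt} {A : ℝ} {p q r : Pt} :
    (p, q, r) ∈ tri P A ↔ (p ∈ P ∧ q ∈ P ∧ r ∈ P) ∧ |ar p q r| = 2 * A := by
  simp [tri]

lemma mem_triX {S : ℝ} {P : Finset Pt} {A : ℝ} {p q r : Pt} :
    (p, q, r) ∈ triX S P A ↔ ((p ∈ P ∧ q ∈ P ∧ r ∈ P) ∧ |ar p q r| = 2 * A) ∧
      S / 2 < q.1 - p.1 := by
  simp [triX, tri]

lemma ar1 (p q r : Pt) : |ar q p r| = |ar p q r| := by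
  rw [← abs_neg]; congr 1; unfold ar; ring

lemma ar2 (p q r : Pt) : |ar p r q| = |ar p q r| := by
  rw [← abs_neg]; congr 1; unfold ar; ring

lemma ar3 (p q r : Pt) : |ar r p q| = |ar p q r| := by
  congr 1; unfold ar; ring

lemma ar4 (p q r : Pt) : |ar q r p| = |ar p q r| := by
  congr 1; unfold ar; ring

lemma ar5 (p q r : Pt) : |ar r q p| = |ar p q r| := by
  rw [← abs_neg]; congr 1; unfold ar; ring

lemma cover (S : ℝ) (P : Finset Pt) (A : ℝ) (p q r : Pt) (ht : (p, q, r) ∈ tri P A)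
    (h : S / 2 < |p.1 - q.1| ∨ S / 2 < |p.1 - r.1| ∨ S / 2 < |q.1 - r.1|) :
    (p, q, r) ∈ U6 (triX S P A) := by
  obtain ⟨⟨hp, hq, hr⟩, hA⟩ := mem_tri.1 ht
  unfold U6
  simp only [Finset.mem_union, Finset.mem_image]
  rcases h with h | h | h
  · rcases lt_abs.1 h with h | h
    · right; left
      exact ⟨(q, p, r), mem_triX.2 ⟨⟨⟨hq, hp, hr⟩, by rw [ar1, hA]⟩, h⟩, rfl⟩
    · left
      exact ⟨(p, q, r), mem_triX.2 ⟨⟨⟨hp, hq, hr⟩, hA⟩, by linarith⟩, rfl⟩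
  · rcases lt_abs.1 h with h | h
    · right; right; right; left
      exact ⟨(r, p, q), mem_triX.2 ⟨⟨⟨hr, hp, hq⟩, by rw [ar3, hA]⟩, h⟩, rfl⟩
    · right; right; left
      exact ⟨(p, r, q), mem_triX.2 ⟨⟨⟨hp, hr, hq⟩, by rw [ar2, hA]⟩, by linarith⟩, rfl⟩
  · rcases lt_abs.1 h with h | h
    · right; right; right; right; right
      exact ⟨(r, q, p), mem_triX.2 ⟨⟨⟨hr, hq, hp⟩, by rw [ar5, hA]⟩, h⟩, rfl⟩
    · right; right; right; right; left
      exact ⟨(q, r, p), mem_triX.2 ⟨⟨⟨hq, hr, hp⟩, by rw [ar4, hA]⟩, by linarith⟩, rfl⟩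

/-- Exchange of the coordinates. -/
def sw (p : Pt) : Pt := (p.2, p.1)

lemma sw_sw (p : Pt) : sw (sw p) = p := rfl

lemma sw_inj : Function.Injective sw := fun p q h => by
  rw [← sw_sw p, h, sw_sw]

lemma ar_sw (p q r : Pt) : |ar (sw p) (sw q) (sw r)| = |ar p q r| := by
  rw [← abs_neg]; congr 1; unfold ar sw; ring

lemma cells_sw {K : ℕ} {P : Finset Pt} (h : Cells K P) : Cells K (P.image sw) := by
  intro i j
  have h1 : (P.image sw).filter (fun p => ⌊p.1⌋ = i ∧ ⌊p.2⌋ = j) =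
      (P.filter fun p => ⌊p.1⌋ = j ∧ ⌊p.2⌋ = i).image sw := by
    ext p
    simp only [Finset.mem_filter, Finset.mem_image]
    constructor
    · rintro ⟨⟨q, hq, rfl⟩, h1, h2⟩
      exact ⟨q, ⟨hq, h2, h1⟩, rfl⟩
    · rintro ⟨q, ⟨hq, h1, h2⟩, rfl⟩
      exact ⟨⟨q, hq, rfl⟩, h2, h1⟩
  rw [h1]
  exact Finset.card_image_le.trans (h j i)

lemma box_sw {S : ℝ} {P : Finset Pt} (h : Box S P) : Box S (P.image sw) := by
  intro p hp
  obtain ⟨q, hq, rfl⟩ := Finset.mem_image.1 hp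
  obtain ⟨h1, h2, h3, h4⟩ := h q hq
  exact ⟨h3, h4, h1, h2⟩

end Adiam

open Adiam in
theorem I_diam : St_diam := by
  rintro ⟨C, hC, hX⟩
  refine ⟨12 * C, by positivity, fun K k P hK hP hB A hA => ?_⟩
  have h1 := hX K k P hK hP hB A hA
  have h2 := hX K k (P.image sw) hK (cells_sw hP) (box_sw hB) A hA
  set S : ℝ := 2 ^ k with hS
  set D := (tri P A).filter fun t => S / 2 < ds t.1 t.2.1 ∨ S / 2 < ds t.1 t.2.2 ∨
      S / 2 < ds t.2.1 t.2.2 with hD
  have h3 : D ⊆ U6 (triX S P A) ∪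
      (U6 (triX S (P.image sw) A)).image (fun t => (sw t.1, sw t.2.1, sw t.2.2)) := by
    rintro ⟨p, q, r⟩ ht
    obtain ⟨ht1, ht2⟩ := Finset.mem_filter.1 ht
    have h4 : (S / 2 < |p.1 - q.1| ∨ S / 2 < |p.1 - r.1| ∨ S / 2 < |q.1 - r.1|) ∨
        (S / 2 < |p.2 - q.2| ∨ S / 2 < |p.2 - r.2| ∨ S / 2 < |q.2 - r.2|) := by
      simp only [ds, lt_max_iff] at ht2
      tauto
    rcases h4 with h4 | h4
    · exact Finset.mem_union_left _ (cover S P A p q r ht1 h4)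
    · refine Finset.mem_union_right _ (Finset.mem_image.2 ⟨(sw p, sw q, sw r), ?_, rfl⟩)
      refine cover S _ A _ _ _ ?_ h4
      obtain ⟨⟨hp, hq, hr⟩, hA'⟩ := mem_tri.1 ht1
      exact mem_tri.2 ⟨⟨Finset.mem_image_of_mem _ hp, Finset.mem_image_of_mem _ hq,
        Finset.mem_image_of_mem _ hr⟩, by rw [ar_sw, hA']⟩
  have h4 : D.card ≤ 6 * (triX S P A).card + 6 * (triX S (P.image sw) A).card := by
    refine (Finset.card_le_card h3).trans ((Finset.card_union_le _ _).trans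
      (Nat.add_le_add (card_U6 _) (Finset.card_image_le.trans (card_U6 _))))
  have h5 : (D.card : ℝ) ≤ 6 * (triX S P A).card + 6 * (triX S (P.image sw) A).card := by
    exact_mod_cast h4
  refine h5.trans ?_
  calc (6 : ℝ) * (triX S P A).card + 6 * (triX S (P.image sw) A).card
      ≤ 6 * (C * K ^ 4 * S ^ 4 * (k + 2) ^ 2 * (1 + A) ^ ((1 : ℝ) / 6)) +
        6 * (C * K ^ 4 * S ^ 4 * (k + 2) ^ 2 * (1 + A) ^ ((1 : ℝ) / 6)) := by linarith
    _ = 12 * C * K ^ 4 * S ^ 4 * (k + 2) ^ 2 * (1 + A) ^ ((1 : ℝ) / 6) := by ring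

end Pool.Agent.Work.MP_916cc8_co.HO
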