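import Pool.Agent.Work.MP_916cc8_co.HO.Stmts

/-!
Item `fix`: the inequality for a fixed slope.
-/

set_option autoImplicit false

namespace Pool.Agent.Work.MP_916cc8_co.HO

open MeasureTheory

namespace Afix

lemma q_on {p q : Pt} {S : ℝ} (hS : 0 < S) (h : S / 2 < q.1 - p.1) :
    q.2 - sl p q * q.1 - ic p q = 0 := by
  have hne : q.1 - p.1 ≠ 0 := by
    have : 0 < q.1 - p.1 := by linarith
    exact ne_of_gt this
  have h1 : sl p q * (q.1 - p.1) = q.2 - p.2 := by
    unfold sl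
    field_simp
  unfold ic
  linarith

lemma p_on (p q : Pt) : p.2 - sl p q * p.1 - ic p q = 0 := by
  unfold ic
  ring

lemma tri_le {S W a b s c : ℝ} (hS : 0 < S) (ha : |a - s| ≤ W / (4 * S)) (hb : |b - c| ≤ W / 4)
    {x : Pt} (hx : |x.1| ≤ S) {d : ℝ} (hd : |x.2 - s * x.1 - c| ≤ d) :
    |x.2 - a * x.1 - b| ≤ d + W / 2 := by
  have h1 : x.2 - a * x.1 - b = (x.2 - s * x.1 - c) - (a - s) * x.1 - (b - c) := by ring
  have h2 : |(a - s) * x.1| ≤ W / 4 := by
    rw [abs_mul]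
    calc |a - s| * |x.1| ≤ W / (4 * S) * S :=
          mul_le_mul ha hx (abs_nonneg _) (le_trans (abs_nonneg _) ha)
      _ = W / 4 := by field_simp
  rw [h1]
  have h3 := abs_le.mp hd
  have h4 := abs_le.mp h2
  have h5 := abs_le.mp hb
  rw [abs_le]
  constructor
  · linarith [h3.1, h4.2, h5.2]
  · linarith [h3.2, h4.1, h5.1]

lemma abs_fst_le {S : ℝ} {P : Finset Pt} (hB : Box S P) {x : Pt} (hx : x ∈ P) : |x.1| ≤ S := by
  obtain ⟨h1, h2, _, _⟩ := hB x hx
  exact abs_le.mpr ⟨h1, h2.le⟩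

lemma pointwise (hpt : St_pt) (K k J : ℕ) (P : Finset Pt) (hC : Cells K P) (hB : Box (2 ^ k) P)
    (W a r : ℝ) (hW : 0 < W) (hW8 : W ≤ 1 / 8) (ha : |a| ≤ 6) (hJ : 1 ≤ J) (hWJ : 3 * W * J ≤ 1)
    (hr : 40 * K * 2 ^ k ≤ J * r) (N : Finset (Pt × Pt)) (hN : N ⊆ far (2 ^ k) P)
    (hrich : ∀ z ∈ N, r ≤ F P (W / 4) (sl z.1 z.2) (ic z.1 z.2)) (b : ℝ) :
    (((N.filter fun z => |a - sl z.1 z.2| ≤ W / (4 * 2 ^ k)).filter
      fun z => |b - ic z.1 z.2| ≤ W / 4).card : ℝ) ≤
      4 / J * ∑ j ∈ Finset.range J, ((F P W a b : ℝ) - F P W a (b + 3 * W * j)) ^ 2 := by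
  classical
  have hS : (0 : ℝ) < 2 ^ k := by positivity
  have hRHS : 0 ≤ 4 / (J : ℝ) *
      ∑ j ∈ Finset.range J, ((F P W a b : ℝ) - F P W a (b + 3 * W * j)) ^ 2 := by
    apply mul_nonneg (by positivity)
    exact Finset.sum_nonneg (fun j _ => sq_nonneg _)
  set M := (N.filter fun z => |a - sl z.1 z.2| ≤ W / (4 * 2 ^ k)).filter
      fun z => |b - ic z.1 z.2| ≤ W / 4 with hM
  rcases M.eq_empty_or_nonempty with h0 | ⟨z, hz⟩
  · rw [h0]
    simpa using hRHS
  · -- the strip is rich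
    have hz' := hz
    rw [hM, Finset.mem_filter, Finset.mem_filter] at hz'
    obtain ⟨⟨hzN, hza⟩, hzb⟩ := hz'
    have hF : r ≤ F P W a b := by
      refine le_trans (hrich z hzN) ?_
      unfold F
      have : (P.filter fun p => |p.2 - sl z.1 z.2 * p.1 - ic z.1 z.2| ≤ W / 4).card ≤
          (P.filter fun p => |p.2 - a * p.1 - b| ≤ W).card := by
        apply Finset.card_le_card
        intro x hx
        rw [Finset.mem_filter] at hx ⊢
        refine ⟨hx.1, ?_⟩
        have := tri_le hS hza hzb (abs_fst_le hB hx.1) hx.2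
        linarith
      exact_mod_cast this
    have h1 := hpt K k J P hC hB W a b r hW hW8 ha hJ hWJ hr hF
    refine le_trans ?_ h1
    -- pairs of points of the strip
    have hsub : M ⊆ (P.filter fun p => |p.2 - a * p.1 - b| ≤ W) ×ˢ
        (P.filter fun p => |p.2 - a * p.1 - b| ≤ W) := by
      intro y hy
      rw [hM, Finset.mem_filter, Finset.mem_filter] at hy
      obtain ⟨⟨hyN, hya⟩, hyb⟩ := hy
      have hyf := hN hyN
      unfold far at hyf
      rw [Finset.mem_filter, Finset.mem_product] at hyf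
      obtain ⟨⟨hy1, hy2⟩, hy3⟩ := hyf
      rw [Finset.mem_product, Finset.mem_filter, Finset.mem_filter]
      refine ⟨⟨hy1, ?_⟩, ⟨hy2, ?_⟩⟩
      · have hd : |y.1.2 - sl y.1 y.2 * y.1.1 - ic y.1 y.2| ≤ 0 := by
          rw [p_on, abs_zero]
        have := tri_le hS hya hyb (abs_fst_le hB hy1) hd
        linarith
      · have hd : |y.2.2 - sl y.1 y.2 * y.2.1 - ic y.1 y.2| ≤ 0 := by
          rw [q_on hS hy3, abs_zero]
        have := tri_le hS hya hyb (abs_fst_le hB hy2) hd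
        linarith
    have hcard := Finset.card_le_card hsub
    rw [Finset.card_product] at hcard
    have h2 : (M.card : ℝ) ≤ (F P W a b : ℝ) * (F P W a b : ℝ) := by
      unfold F
      exact_mod_cast hcard
    rw [sq]
    exact h2

end Afix

theorem I_fix (hpt : St_pt) (hbdiff : St_bdiff) : St_fix := by
  classical
  intro K k J P hC hB W a r hW hW8 ha hJ hWJ hr hr0 N hN hrich
  set N' := N.filter fun z => |a - sl z.1 z.2| ≤ W / (4 * 2 ^ k) with hN'
  -- the function to integrate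
  have hint : ∀ j ∈ Finset.range J,
      Integrable (fun b : ℝ => ((F P W a b : ℝ) - F P W a (b + 3 * W * j)) ^ 2) :=
    fun j _ => (hbdiff P W a (3 * W * j) hW).1
  have hR : Integrable (fun b : ℝ => 4 / (J : ℝ) *
      ∑ j ∈ Finset.range J, ((F P W a b : ℝ) - F P W a (b + 3 * W * j)) ^ 2) :=
    (integrable_finsetSum _ hint).const_mul _
  have hL1 : ∀ z ∈ N', Integrable
      ((Set.Icc (ic z.1 z.2 - W / 4) (ic z.1 z.2 + W / 4)).indicator (fun _ : ℝ => (1 : ℝ))) := by
    intro z _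
    rw [integrable_indicator_iff measurableSet_Icc]
    exact integrableOn_const (by simp)
  have hL : Integrable (fun b : ℝ => ∑ z ∈ N',
      (Set.Icc (ic z.1 z.2 - W / 4) (ic z.1 z.2 + W / 4)).indicator (fun _ : ℝ => (1 : ℝ)) b) :=
    integrable_finsetSum _ hL1
  have hLe : ∀ b : ℝ, ∑ z ∈ N',
      (Set.Icc (ic z.1 z.2 - W / 4) (ic z.1 z.2 + W / 4)).indicator (fun _ : ℝ => (1 : ℝ)) b ≤
      4 / (J : ℝ) * ∑ j ∈ Finset.range J, ((F P W a b : ℝ) - F P W a (b + 3 * W * j)) ^ 2 := by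
    intro b
    refine le_trans (le_of_eq ?_)
      (Afix.pointwise hpt K k J P hC hB W a r hW hW8 ha hJ hWJ hr N hN hrich b)
    rw [Finset.card_filter, Nat.cast_sum]
    apply Finset.sum_congr rfl
    intro z _
    rw [Set.indicator_apply]
    have : (b ∈ Set.Icc (ic z.1 z.2 - W / 4) (ic z.1 z.2 + W / 4)) ↔
        |b - ic z.1 z.2| ≤ W / 4 := by
      rw [Set.mem_Icc, abs_le]
      constructor
      · rintro ⟨h1, h2⟩
        exact ⟨by linarith, by linarith⟩
      · rintro ⟨h1, h2⟩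
        exact ⟨by linarith, by linarith⟩
    by_cases h : |b - ic z.1 z.2| ≤ W / 4
    · rw [if_pos (this.mpr h), if_pos h]
      simp
    · rw [if_neg (fun hh => h (this.mp hh)), if_neg h]
      simp
  have hmono := integral_mono hL hR hLe
  rw [integral_finsetSum _ hL1, integral_const_mul, integral_finsetSum _ hint] at hmono
  refine le_trans (le_of_eq ?_) hmono
  have : ∀ z ∈ N', ∫ b : ℝ,
      (Set.Icc (ic z.1 z.2 - W / 4) (ic z.1 z.2 + W / 4)).indicator (fun _ : ℝ => (1 : ℝ)) b =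
      W / 2 := by
    intro z _
    rw [integral_indicator_const _ measurableSet_Icc]
    rw [Real.volume_real_Icc_of_le (by linarith)]
    simp
    ring
  rw [Finset.sum_congr rfl this, Finset.sum_const, nsmul_eq_mul]

end Pool.Agent.Work.MP_916cc8_co.HO
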