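import Pool.Agent.Work.MP_916cc8_co.HO.Stmts

set_option autoImplicit false

namespace Pool.Agent.Work.MP_916cc8_co.HO

open MeasureTheory

open scoped Classical

namespace Afix2

/-- indicator of the interval of half-length `u` around `c` -/
noncomputable def ind (u c b : ℝ) : ℝ := (Set.Icc (c - u) (c + u)).indicator (fun _ => (1 : ℝ)) b

theorem ind_int (u c : ℝ) : Integrable (fun b => ind u c b) := by
  unfold ind
  refine IntegrableOn.integrable_indicator ?_ measurableSet_Icc
  exact integrableOn_const (by simp)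

theorem ind_integral (u c : ℝ) (hu : 0 ≤ u) : ∫ b, ind u c b = 2 * u := by
  unfold ind
  rw [integral_indicator measurableSet_Icc]
  simp only [integral_const, MeasurableSet.univ, measureReal_restrict_apply, Set.univ_inter,
    smul_eq_mul, mul_one]
  rw [Real.volume_real_Icc_of_le (by linarith)]
  ring

theorem ind_eq (u c b : ℝ) : ind u c b = if |b - c| ≤ u then 1 else 0 := by
  unfold ind
  rw [Set.indicator_apply]
  congr 1
  rw [Set.mem_Icc, abs_le]
  apply propext
  constructor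
  · rintro ⟨h1, h2⟩
    constructor <;> linarith
  · rintro ⟨h1, h2⟩
    constructor <;> linarith

theorem move (S w a b s c : ℝ) (x : Pt) (κ : ℝ) (hS : 0 < S) (hx : -S ≤ x.1 ∧ x.1 < S)
    (hb : |b - c| ≤ w / 8) (ha : |a - s| ≤ w / (32 * S)) (hk : |x.2 - s * x.1 - c| ≤ κ) :
    |x.2 - a * x.1 - b| ≤ κ + w / 32 + w / 8 := by
  have hx1 : |x.1| ≤ S := abs_le.2 ⟨hx.1, hx.2.le⟩
  have h1 : |(a - s) * x.1| ≤ w / 32 := by
    rw [abs_mul]
    calc |a - s| * |x.1| ≤ w / (32 * S) * S :=
          mul_le_mul ha hx1 (abs_nonneg _) ((abs_nonneg _).trans ha)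
      _ = w / 32 := by field_simp
  have e : x.2 - a * x.1 - b = (x.2 - s * x.1 - c) - (a - s) * x.1 - (b - c) := by ring
  rw [e]
  calc |(x.2 - s * x.1 - c) - (a - s) * x.1 - (b - c)|
      ≤ |(x.2 - s * x.1 - c) - (a - s) * x.1| + |b - c| := abs_sub _ _
    _ ≤ |x.2 - s * x.1 - c| + |(a - s) * x.1| + |b - c| := by
        gcongr
        exact abs_sub _ _
    _ ≤ _ := by linarith

theorem move' (S w a b s c : ℝ) (x : Pt) (κ : ℝ) (hS : 0 < S) (hx : -S ≤ x.1 ∧ x.1 < S)
    (hb : |b - c| ≤ w / 8) (ha : |a - s| ≤ w / (32 * S)) (hk : |x.2 - a * x.1 - b| ≤ κ) :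
    |x.2 - s * x.1 - c| ≤ κ + w / 32 + w / 8 :=
  move S w s c a b x κ hS hx (by rw [abs_sub_comm]; exact hb) (by rw [abs_sub_comm]; exact ha) hk

end Afix2

open Afix2 in
theorem I_fix2 (hline : St_line) (hbint : St_bint) : St_fix2 := by
  intro C hC hU k P hP A B w R a hA hAB hw hR hB N hN hNR
  set S : ℝ := 2 ^ k with hS
  have hS0 : 0 < S := by positivity
  have hw0 : 0 < w := by rw [hw]; positivity
  set N' := N.filter fun t => |a - sl t.1 t.2.1| ≤ w / (32 * S) with hN'
  have hwB : 4 * A / S ≤ w / 2 := by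
    rw [hw, div_div, div_le_div_iff₀ hS0 (by positivity)]
    nlinarith
  -- pointwise inequality
  have key : ∀ b : ℝ, ∑ t ∈ N', ind (w / 8) (ic t.1 t.2.1) b ≤
      C * R ^ ((1 : ℝ) / 6) * (F P (3 * w / 4) a b : ℝ) ^ 2 := by
    intro b
    have e1 : ∑ t ∈ N', ind (w / 8) (ic t.1 t.2.1) b =
        ((N'.filter fun t => |b - ic t.1 t.2.1| ≤ w / 8).card : ℝ) := by
      rw [Finset.card_filter]
      push_cast
      exact Finset.sum_congr rfl fun t _ => ind_eq _ _ _
    rw [e1]
    rcases (N'.filter fun t => |b - ic t.1 t.2.1| ≤ w / 8).eq_empty_or_nonempty with h0 | h0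
    · rw [h0]
      simp only [Finset.card_empty, Nat.cast_zero]
      positivity
    · set P' := P.filter (fun x => |x.2 - a * x.1 - b| ≤ 3 * w / 4) with hP'
      have hc : F P (3 * w / 4) a b = P'.card := rfl
      have hmem : ∀ t ∈ N'.filter (fun t => |b - ic t.1 t.2.1| ≤ w / 8),
          t.1 ∈ P ∧ t.2.1 ∈ P ∧ t.2.2 ∈ P ∧ |ar t.1 t.2.1 t.2.2| = 2 * A ∧
          S / 2 < t.2.1.1 - t.1.1 ∧ |a - sl t.1 t.2.1| ≤ w / (32 * S) ∧
          |b - ic t.1 t.2.1| ≤ w / 8 ∧ (F P w (sl t.1 t.2.1) (ic t.1 t.2.1) : ℝ) ≤ R := by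
        intro t ht
        rw [Finset.mem_filter, hN', Finset.mem_filter] at ht
        have h1 := hN ht.1.1
        unfold triX tri at h1
        rw [Finset.mem_filter, Finset.mem_filter, Finset.mem_product, Finset.mem_product] at h1
        exact ⟨h1.1.1.1, h1.1.1.2.1, h1.1.1.2.2, h1.1.2, h1.2, ht.1.2, ht.2, hNR t ht.1.1⟩
      have hsub : N'.filter (fun t => |b - ic t.1 t.2.1| ≤ w / 8) ⊆ tri P' A := by
        intro t ht
        obtain ⟨m1, m2, m3, m4, m5, m6, m7, -⟩ := hmem t ht
        have l := hline S A P hS0 hA.le hP t.1 m1 t.2.1 m2 t.2.2 m3 m5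
        have hin : ∀ x ∈ P, |x.2 - sl t.1 t.2.1 * x.1 - ic t.1 t.2.1| ≤ w / 2 → x ∈ P' := by
          intro x hx hx'
          rw [hP', Finset.mem_filter]
          refine ⟨hx, ?_⟩
          have := move S w a b _ _ x (w / 2) hS0 ⟨(hP x hx).1, (hP x hx).2.1⟩ m7 m6 hx'
          linarith
        unfold tri
        rw [Finset.mem_filter, Finset.mem_product, Finset.mem_product]
        refine ⟨⟨hin _ m1 ?_, hin _ m2 ?_, hin _ m3 ?_⟩, m4⟩
        · unfold ic
          simp only [sub_self, abs_zero]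
          positivity
        · rw [l.2.1]; positivity
        · exact (l.2.2 m4).trans hwB
      have hle : (P'.card : ℝ) ≤ R := by
        obtain ⟨t, ht⟩ := h0
        obtain ⟨m1, m2, m3, m4, m5, m6, m7, m8⟩ := hmem t ht
        refine le_trans ?_ m8
        have : P'.card ≤ F P w (sl t.1 t.2.1) (ic t.1 t.2.1) := by
          unfold F
          apply Finset.card_le_card
          intro x hx
          rw [hP', Finset.mem_filter] at hx
          rw [Finset.mem_filter]
          refine ⟨hx.1, ?_⟩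
          have := move' S w a b (sl t.1 t.2.1) (ic t.1 t.2.1) x (3 * w / 4) hS0
            ⟨(hP x hx.1).1, (hP x hx.1).2.1⟩ m7 m6 hx.2
          linarith
        exact_mod_cast this
      have h2 : ((tri P' A).card : ℝ) ≤ C * (P'.card : ℝ) ^ ((13 : ℝ) / 6) := hU P' A hA
      have h3 : ((N'.filter fun t => |b - ic t.1 t.2.1| ≤ w / 8).card : ℝ) ≤
          ((tri P' A).card : ℝ) := by exact_mod_cast Finset.card_le_card hsub
      have hpos : 0 < (P'.card : ℝ) := by
        have : 0 < P'.card := by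
          obtain ⟨t, ht⟩ := h0
          have := hsub ht
          unfold tri at this
          rw [Finset.mem_filter, Finset.mem_product] at this
          exact Finset.card_pos.2 ⟨_, this.1.1⟩
        exact_mod_cast this
      have h4 : (P'.card : ℝ) ^ ((13 : ℝ) / 6) ≤ R ^ ((1 : ℝ) / 6) * (P'.card : ℝ) ^ 2 := by
        have e2 : (P'.card : ℝ) ^ ((13 : ℝ) / 6) =
            (P'.card : ℝ) ^ ((1 : ℝ) / 6) * (P'.card : ℝ) ^ 2 := by
          rw [← Real.rpow_natCast, ← Real.rpow_add hpos]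
          norm_num
        rw [e2]
        exact mul_le_mul_of_nonneg_right
          (Real.rpow_le_rpow hpos.le hle (by norm_num)) (by positivity)
      rw [hc]
      calc ((N'.filter fun t => |b - ic t.1 t.2.1| ≤ w / 8).card : ℝ)
          ≤ C * (P'.card : ℝ) ^ ((13 : ℝ) / 6) := h3.trans h2
        _ ≤ C * (R ^ ((1 : ℝ) / 6) * (P'.card : ℝ) ^ 2) := mul_le_mul_of_nonneg_left h4 hC.le
        _ = _ := by ring
  have hint := (hbint P (3 * w / 4) a (by positivity)).1
  have h5 := integral_mono (integrable_finsetSum N' fun t _ => ind_int (w / 8) (ic t.1 t.2.1))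
    (hint.const_mul (C * R ^ ((1 : ℝ) / 6))) key
  rw [integral_const_mul] at h5
  have h6 : ∫ b, ∑ t ∈ N', ind (w / 8) (ic t.1 t.2.1) b = (N'.card : ℝ) * (w / 4) := by
    rw [integral_finsetSum N' fun t _ => ind_int (w / 8) (ic t.1 t.2.1)]
    simp only [ind_integral _ _ (show 0 ≤ w / 8 by positivity)]
    rw [Finset.sum_const, nsmul_eq_mul]
    ring
  rw [h6] at h5
  exact h5

end Pool.Agent.Work.MP_916cc8_co.HO
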