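import Pool.Agent.Work.MP_916cc8_co.HO.Stmts

/-!
# The line of a far pair
-/

set_option autoImplicit false

namespace Pool.Agent.Work.MP_916cc8_co.HO

theorem I_line : St_line := by
  intro S A P hS hA hB p hp q hq r hr hD
  have hD0 : 0 < q.1 - p.1 := by linarith
  obtain ⟨_, _, p3, p4⟩ := hB p hp
  obtain ⟨_, _, q3, q4⟩ := hB q hq
  have habs : |q.2 - p.2| ≤ 2 * S := by rw [abs_le]; constructor <;> linarith
  have hsl : sl p q * (q.1 - p.1) = q.2 - p.2 := by
    unfold sl; exact div_mul_cancel₀ _ hD0.ne'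
  refine ⟨?_, ?_, ?_⟩
  · unfold sl
    rw [abs_div, abs_of_pos hD0, div_le_iff₀ hD0]
    linarith
  · have : q.2 - sl p q * q.1 - ic p q = 0 := by
      unfold ic
      linarith
    rw [this, abs_zero]
  · intro h
    have e : (r.2 - sl p q * r.1 - ic p q) * (q.1 - p.1) = ar p q r := by
      unfold ic ar
      linear_combination -(r.1 - p.1) * hsl
    have h1 : |r.2 - sl p q * r.1 - ic p q| * (q.1 - p.1) = 2 * A := by
      rw [← h, ← e, abs_mul, abs_of_pos hD0]
    rw [le_div_iff₀ hS]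
    have h2 : 0 ≤ |r.2 - sl p q * r.1 - ic p q| := abs_nonneg _
    nlinarith

end Pool.Agent.Work.MP_916cc8_co.HO
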