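import Pool.Agent.Work.MP_916cc8_co.HO.Stmts

/-!
# Items npt and near
-/

set_option autoImplicit false

namespace Pool.Agent.Work.MP_916cc8_co.HO

open scoped Classical

theorem I_npt : St_npt := by
  intro K k P hC hB
  have h1 : P.card ≤ K * (Finset.Ico (-2 ^ k : ℤ) (2 ^ k) ×ˢ Finset.Ico (-2 ^ k : ℤ) (2 ^ k)).card := by
    refine Finset.card_le_mul_card_image_of_maps_to
      (f := fun p : Pt => ((⌊p.1⌋, ⌊p.2⌋) : ℤ × ℤ)) ?_ K ?_
    · intro p hp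
      obtain ⟨h1, h2, h3, h4⟩ := hB p hp
      have e : ((2 ^ k : ℤ) : ℝ) = 2 ^ k := by push_cast; rfl
      have e' : ((-2 ^ k : ℤ) : ℝ) = -2 ^ k := by push_cast; rfl
      rw [Finset.mem_product, Finset.mem_Ico, Finset.mem_Ico]
      refine ⟨⟨?_, ?_⟩, ?_, ?_⟩
      · rw [Int.le_floor, e']; exact h1
      · rw [Int.floor_lt, e]; exact h2
      · rw [Int.le_floor, e']; exact h3
      · rw [Int.floor_lt, e]; exact h4
    · intro b _
      refine (Finset.card_le_card ?_).trans (hC b.1 b.2)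
      intro p hp
      rw [Finset.mem_filter] at hp ⊢
      exact ⟨hp.1, congrArg Prod.fst hp.2, congrArg Prod.snd hp.2⟩
  have h2 : (Finset.Ico (-2 ^ k : ℤ) (2 ^ k) ×ˢ Finset.Ico (-2 ^ k : ℤ) (2 ^ k)).card
      = 4 * (2 ^ k) ^ 2 := by
    have h3 : (2 ^ k - -2 ^ k : ℤ).toNat = 2 * 2 ^ k := by
      have : (2 ^ k - -2 ^ k : ℤ) = ((2 * 2 ^ k : ℕ) : ℤ) := by push_cast; ring
      rw [this, Int.toNat_natCast]
    rw [Finset.card_product, Int.card_Ico, h3]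
    ring
  rw [h2] at h1
  calc (P.card : ℝ) ≤ ((K * (4 * (2 ^ k) ^ 2) : ℕ) : ℝ) := by exact_mod_cast h1
    _ = 4 * K * (2 ^ k) ^ 2 := by push_cast; ring

theorem I_near (hrect : St_rect) : St_near := by
  intro K P hC p ρ hρ
  have h1 := hrect K P hC (p.1 - ρ) (p.2 - ρ) (2 * ρ) (2 * ρ) (by linarith) (by linarith)
  have h2 : (P.filter fun q => ds p q ≤ ρ) ⊆ P.filter fun q =>
      (p.1 - ρ ≤ q.1 ∧ q.1 ≤ p.1 - ρ + 2 * ρ) ∧ p.2 - ρ ≤ q.2 ∧ q.2 ≤ p.2 - ρ + 2 * ρ := by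
    intro q hq
    rw [Finset.mem_filter] at hq ⊢
    obtain ⟨hq1, hq2⟩ := hq
    unfold ds at hq2
    obtain ⟨h3, h4⟩ := max_le_iff.1 hq2
    obtain ⟨h5, h6⟩ := abs_le.1 h3
    obtain ⟨h7, h8⟩ := abs_le.1 h4
    exact ⟨hq1, ⟨by linarith, by linarith⟩, by linarith, by linarith⟩
  have h3 : ((P.filter fun q => ds p q ≤ ρ).card : ℝ) ≤ K * (2 * ρ + 2) * (2 * ρ + 2) :=
    le_trans (by exact_mod_cast Finset.card_le_card h2) h1
  refine h3.trans ?_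
  have hK : (0 : ℝ) ≤ K := Nat.cast_nonneg K
  have h4 : (2 * ρ + 2) * (2 * ρ + 2) ≤ 16 * ρ ^ 2 := by nlinarith
  calc (K : ℝ) * (2 * ρ + 2) * (2 * ρ + 2) = K * ((2 * ρ + 2) * (2 * ρ + 2)) := by ring
    _ ≤ K * (16 * ρ ^ 2) := mul_le_mul_of_nonneg_left h4 hK
    _ = 16 * K * ρ ^ 2 := by ring

end Pool.Agent.Work.MP_916cc8_co.HO
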