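import Pool.Agent.Work.MP_916cc8_co.HO.Stmts

set_option autoImplicit false

/-!
# The number of rich far pairs
-/

namespace Pool.Agent.Work.MP_916cc8_co.HO

open MeasureTheory

open scoped Classical

namespace Arich

theorem om_nonneg (a : ℝ) : 0 ≤ om a := le_max_left _ _

theorem om_one (a : ℝ) (h : |a| ≤ 5) : om a = 1 := by
  unfold om
  rw [min_eq_left (by linarith)]
  simp

theorem om_zero (a : ℝ) (h : 6 ≤ |a|) : om a = 0 := by
  unfold om
  rw [max_eq_left]
  exact (min_le_right _ _).trans (by linarith)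

/-- The counting function of the slopes near `a`, as a sum of indicators. -/
noncomputable def G (N : Finset (Pt × Pt)) (δ c : ℝ) (a : ℝ) : ℝ :=
  ∑ z ∈ N, (Set.Icc (sl z.1 z.2 - δ) (sl z.1 z.2 + δ)).indicator (fun _ => c) a

theorem G_eq (N : Finset (Pt × Pt)) (δ c a : ℝ) :
    G N δ c a = ((N.filter fun z => |a - sl z.1 z.2| ≤ δ).card : ℝ) * c := by
  unfold G
  rw [Finset.card_filter]
  push_cast
  rw [Finset.sum_mul]
  refine Finset.sum_congr rfl fun z _ => ?_
  by_cases h : |a - sl z.1 z.2| ≤ δ
  · rw [Set.indicator_of_mem, if_pos h, one_mul]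
    obtain ⟨h1, h2⟩ := abs_le.1 h
    exact ⟨by linarith, by linarith⟩
  · rw [Set.indicator_of_notMem, if_neg h, zero_mul]
    rintro ⟨h1, h2⟩
    exact h (abs_le.2 ⟨by linarith, by linarith⟩)

theorem G_integrable (N : Finset (Pt × Pt)) (δ c : ℝ) : Integrable (G N δ c) := by
  unfold G
  refine integrable_finsetSum _ fun z _ => ?_
  rw [integrable_indicator_iff measurableSet_Icc]
  exact integrableOn_const (by simp)

theorem G_integral (N : Finset (Pt × Pt)) (δ c : ℝ) (hδ : 0 ≤ δ) :
    ∫ a : ℝ, G N δ c a = (N.card : ℝ) * (2 * δ * c) := by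
  unfold G
  rw [integral_finsetSum]
  · have h1 : ∀ z ∈ N, ∫ a : ℝ, (Set.Icc (sl z.1 z.2 - δ) (sl z.1 z.2 + δ)).indicator
        (fun _ => c) a = 2 * δ * c := by
      intro z _
      rw [integral_indicator measurableSet_Icc, setIntegral_const, smul_eq_mul]
      congr 1
      rw [Real.volume_real_Icc_of_le (by linarith)]
      ring
    rw [Finset.sum_congr rfl h1, Finset.sum_const, nsmul_eq_mul]
  · intro z _
    rw [integrable_indicator_iff measurableSet_Icc]
    exact integrableOn_const (by simp)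

end Arich

open Arich in
theorem I_rich (hline : St_line) (hfix : St_fix) (hbdiff : St_bdiff) (ha0 : St_a0)
    (hS2 : St_S2) : St_rich := by
  intro K k J P hP hB W r hW hW8 hJ hWJ hr hr0 N hN hF
  have hS : (0 : ℝ) < 2 ^ k := by positivity
  have hS1 : (1 : ℝ) ≤ 2 ^ k := one_le_pow₀ (by norm_num)
  have hJ0 : (0 : ℝ) < J := by exact_mod_cast hJ
  set δ : ℝ := W / (4 * 2 ^ k) with hδ
  have hδ0 : 0 < δ := by positivity
  have hδ1 : δ ≤ 1 := by
    rw [hδ, div_le_one (by positivity)]
    linarith
  -- the right-hand side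
  set R : ℝ → ℝ := fun a => 8 / J * ∑ j ∈ Finset.range J, ∑ p ∈ P, ∑ q ∈ P,
    (om a * tau W (zz p q a) - om a * tau W (zz p q a + 3 * W * j)) with hR
  have hint1 : ∀ p q : Pt, Integrable (fun a : ℝ => om a * tau W (zz p q a)) := by
    intro p q
    have := (ha0 p q W 0 hW).1
    simpa using this
  have hint : ∀ (p q : Pt) (t : ℝ), Integrable
      (fun a : ℝ => om a * tau W (zz p q a) - om a * tau W (zz p q a + t)) := by
    intro p q t
    exact (hint1 p q).sub (ha0 p q W t hW).1
  have hRint : Integrable R := by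
    refine Integrable.const_mul ?_ _
    refine integrable_finsetSum _ fun j _ => ?_
    refine integrable_finsetSum _ fun p _ => ?_
    refine integrable_finsetSum _ fun q _ => ?_
    exact hint p q _
  have hRI : ∫ a : ℝ, R a = 8 / J * ∑ j ∈ Finset.range J, ∑ p ∈ P, ∑ q ∈ P,
      ∫ a : ℝ, (om a * tau W (zz p q a) - om a * tau W (zz p q a + 3 * W * j)) := by
    rw [hR, integral_const_mul, integral_finsetSum]
    · congr 1
      refine Finset.sum_congr rfl fun j _ => ?_
      rw [integral_finsetSum]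
      · refine Finset.sum_congr rfl fun p _ => ?_
        rw [integral_finsetSum]
        intro q _
        exact hint p q _
      · intro p _
        refine integrable_finsetSum _ fun q _ => ?_
        exact hint p q _
    · intro j _
      refine integrable_finsetSum _ fun p _ => ?_
      refine integrable_finsetSum _ fun q _ => ?_
      exact hint p q _
  have hRle : ∫ a : ℝ, R a ≤ 40000 * K * P.card * W * (k + 2) := by
    rw [hRI]
    have h1 : ∑ j ∈ Finset.range J, ∑ p ∈ P, ∑ q ∈ P,
        ∫ a : ℝ, (om a * tau W (zz p q a) - om a * tau W (zz p q a + 3 * W * j)) ≤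
        ∑ _j ∈ Finset.range J, (5000 * K * P.card * W * (k + 2) : ℝ) := by
      refine Finset.sum_le_sum fun j hj => ?_
      refine hS2 K k P hP hB W (3 * W * j) hW hW8 (by positivity) ?_
      have hj' : (j : ℝ) ≤ J := by exact_mod_cast (Finset.mem_range.1 hj).le
      have : 3 * W * j ≤ 3 * W * J := mul_le_mul_of_nonneg_left hj' (by positivity)
      linarith
    rw [Finset.sum_const, Finset.card_range, nsmul_eq_mul] at h1
    calc 8 / (J : ℝ) * ∑ j ∈ Finset.range J, ∑ p ∈ P, ∑ q ∈ P,
          ∫ a : ℝ, (om a * tau W (zz p q a) - om a * tau W (zz p q a + 3 * W * j))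
        ≤ 8 / (J : ℝ) * (J * (5000 * K * P.card * W * (k + 2))) :=
          mul_le_mul_of_nonneg_left h1 (by positivity)
      _ = 40000 * K * P.card * W * (k + 2) := by
          field_simp
          ring
  -- pointwise comparison
  have hpt : ∀ a : ℝ, G N δ (W / 2) a ≤ R a := by
    intro a
    have hom : G N δ (W / 2) a = om a * G N δ (W / 2) a := by
      by_cases hne : (N.filter fun z => |a - sl z.1 z.2| ≤ δ).Nonempty
      · obtain ⟨z, hz⟩ := hne
        rw [Finset.mem_filter] at hz
        have hzf := hN hz.1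
        unfold far at hzf
        rw [Finset.mem_filter, Finset.mem_product] at hzf
        have h4 := (hline (2 ^ k) 0 P hS le_rfl hB z.1 hzf.1.1 z.2 hzf.1.2 z.1 hzf.1.1 hzf.2).1
        obtain ⟨h5, h6⟩ := abs_le.1 hz.2
        obtain ⟨h7, h8⟩ := abs_le.1 h4
        rw [om_one a (abs_le.2 ⟨by linarith, by linarith⟩), one_mul]
      · rw [Finset.not_nonempty_iff_eq_empty] at hne
        rw [G_eq, hne]
        simp
    by_cases h6 : |a| ≤ 6
    · have h1 := hfix K k J P hP hB W a r hW hW8 h6 hJ hWJ hr hr0 N hN hF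
      have h2 : ∀ j ∈ Finset.range J,
          ∫ b : ℝ, ((F P W a b : ℝ) - F P W a (b + 3 * W * j)) ^ 2 =
          2 * ∑ p ∈ P, ∑ q ∈ P, (tau W (zz p q a) - tau W (zz p q a + 3 * W * j)) := by
        intro j _
        exact (hbdiff P W a (3 * W * j) hW).2
      rw [Finset.sum_congr rfl h2] at h1
      rw [hom, G_eq]
      have h3 := mul_le_mul_of_nonneg_left h1 (om_nonneg a)
      refine h3.trans (le_of_eq ?_)
      rw [hR]
      simp only
      rw [← Finset.mul_sum]
      have h4 : ∑ j ∈ Finset.range J, ∑ p ∈ P, ∑ q ∈ P,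
          (om a * tau W (zz p q a) - om a * tau W (zz p q a + 3 * W * j)) =
          om a * ∑ j ∈ Finset.range J, ∑ p ∈ P, ∑ q ∈ P,
            (tau W (zz p q a) - tau W (zz p q a + 3 * W * j)) := by
        simp only [Finset.mul_sum, mul_sub]
      rw [h4]
      ring
    · have h0 : om a = 0 := om_zero a (by linarith)
      rw [hom, hR]
      simp [h0]
  have hle := integral_mono (G_integrable N δ (W / 2)) hRint hpt
  rw [G_integral N δ (W / 2) hδ0.le] at hle
  have hfin := hle.trans hRle
  have e : (N.card : ℝ) * (2 * δ * (W / 2)) = (N.card : ℝ) * W * (W / (4 * 2 ^ k)) := by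
    rw [hδ]
    ring
  rw [e] at hfin
  have h5 : (N.card : ℝ) * W * (W / (4 * 2 ^ k)) * (4 * 2 ^ k / W) ≤
      40000 * K * P.card * W * (k + 2) * (4 * 2 ^ k / W) :=
    mul_le_mul_of_nonneg_right hfin (by positivity)
  have e1 : (N.card : ℝ) * W * (W / (4 * 2 ^ k)) * (4 * 2 ^ k / W) = N.card * W := by
    field_simp
  have e2 : 40000 * (K : ℝ) * P.card * W * (k + 2) * (4 * 2 ^ k / W) =
      160000 * K * P.card * 2 ^ k * (k + 2) := by
    field_simp
    ring
  rw [e1, e2] at h5
  exact h5

end Pool.Agent.Work.MP_916cc8_co.HO
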