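import Pool.Agent.Work.MP_916cc8_co.HO.Stmts

set_option autoImplicit false

/-!
# Points in a strip
-/

namespace Pool.Agent.Work.MP_916cc8_co.HO

open MeasureTheory

open scoped Classical

namespace Astrip

/-- The column of a point of the strip in the column `i`. -/
theorem col_mem (a b h : ℝ) (ha : |a| ≤ 6) (i : ℤ) (p : Pt)
    (hi : ⌊p.1⌋ = i) (hp : |p.2 - a * p.1 - b| ≤ h) :
    min (a * i) (a * (i + 1)) + b - h ≤ p.2 ∧
      p.2 ≤ min (a * i) (a * (i + 1)) + b - h + (6 + 2 * h) := by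
  have h1 : (i : ℝ) ≤ p.1 := by rw [← hi]; exact Int.floor_le p.1
  have h2 : p.1 < (i : ℝ) + 1 := by rw [← hi]; exact Int.lt_floor_add_one p.1
  obtain ⟨h3, h4⟩ := abs_le.1 hp
  obtain ⟨h5, h6⟩ := abs_le.1 ha
  rcases le_total 0 a with h0 | h0
  · have e : min (a * (i : ℝ)) (a * (i + 1)) = a * i := min_eq_left (by nlinarith)
    rw [e]
    have u1 : a * (i : ℝ) ≤ a * p.1 := mul_le_mul_of_nonneg_left h1 h0
    have u2 : a * p.1 ≤ a * ((i : ℝ) + 1) := mul_le_mul_of_nonneg_left h2.le h0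
    constructor <;> nlinarith
  · have e : min (a * (i : ℝ)) (a * (i + 1)) = a * (i + 1) := min_eq_right (by nlinarith)
    rw [e]
    have u1 : a * p.1 ≤ a * (i : ℝ) := mul_le_mul_of_nonpos_left h1 h0
    have u2 : a * ((i : ℝ) + 1) ≤ a * p.1 := mul_le_mul_of_nonpos_left h2.le h0
    constructor <;> nlinarith

end Astrip

open Astrip in
theorem I_strip (hcol : St_col) : St_strip := by
  intro K k P hP hB h a b hh ha
  have hmaps : ∀ p ∈ P.filter (fun p => |p.2 - a * p.1 - b| ≤ h),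
      ⌊p.1⌋ ∈ Finset.Ico (-(2 ^ k : ℤ)) (2 ^ k : ℤ) := by
    intro p hp
    obtain ⟨h1, h2, -, -⟩ := hB p (Finset.mem_filter.1 hp).1
    rw [Finset.mem_Ico]
    constructor
    · rw [Int.le_floor]
      push_cast
      exact h1
    · rw [Int.floor_lt]
      push_cast
      exact h2
  have hcard := Finset.card_eq_sum_card_fiberwise (f := fun p : Pt => ⌊p.1⌋) hmaps
  have hone : ∀ i ∈ Finset.Ico (-(2 ^ k : ℤ)) (2 ^ k : ℤ),
      (((P.filter (fun p => |p.2 - a * p.1 - b| ≤ h)).filter fun p => ⌊p.1⌋ = i).card : ℝ) ≤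
        K * (2 * h + 8) := by
    intro i _
    have hc := hcol K P hP i (min (a * i) (a * (i + 1)) + b - h) (6 + 2 * h) (by linarith)
    have hle : ((P.filter (fun p => |p.2 - a * p.1 - b| ≤ h)).filter fun p => ⌊p.1⌋ = i).card ≤
        (P.filter fun p => ⌊p.1⌋ = i ∧ min (a * i) (a * (i + 1)) + b - h ≤ p.2 ∧
          p.2 ≤ min (a * i) (a * (i + 1)) + b - h + (6 + 2 * h)).card := by
      apply Finset.card_le_card
      intro p hp
      rw [Finset.mem_filter, Finset.mem_filter] at hp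
      rw [Finset.mem_filter]
      exact ⟨hp.1.1, hp.2, col_mem a b h ha i p hp.2 hp.1.2⟩
    calc (((P.filter (fun p => |p.2 - a * p.1 - b| ≤ h)).filter fun p => ⌊p.1⌋ = i).card : ℝ)
        ≤ ((P.filter fun p => ⌊p.1⌋ = i ∧ min (a * i) (a * (i + 1)) + b - h ≤ p.2 ∧
          p.2 ≤ min (a * i) (a * (i + 1)) + b - h + (6 + 2 * h)).card : ℝ) := by
          exact_mod_cast hle
      _ ≤ K * (6 + 2 * h + 2) := hc
      _ = K * (2 * h + 8) := by ring
  unfold F
  rw [hcard]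
  push_cast
  refine (Finset.sum_le_sum hone).trans ?_
  rw [Finset.sum_const, Int.card_Ico, nsmul_eq_mul]
  have e : (((2 ^ k : ℤ) - -(2 ^ k : ℤ)).toNat : ℝ) = 2 * 2 ^ k := by
    have h1 : (0 : ℤ) ≤ 2 ^ k := by positivity
    have h0 : (0 : ℤ) ≤ (2 ^ k : ℤ) - -(2 ^ k : ℤ) := by linarith
    have : ((((2 ^ k : ℤ) - -(2 ^ k : ℤ)).toNat : ℤ) : ℝ) = (((2 ^ k : ℤ) - -(2 ^ k : ℤ) : ℤ) : ℝ) := by
      rw [Int.toNat_of_nonneg h0]
    rw [Int.cast_natCast] at this
    rw [this]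
    push_cast
    ring
  rw [e]
  apply le_of_eq
  ring

end Pool.Agent.Work.MP_916cc8_co.HO
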