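import Pool.Agent.Work.MP_916cc8_co.HO.Stmts

/-!
# Item sub: subdivision of a square
-/

set_option autoImplicit false

namespace Pool.Agent.Work.MP_916cc8_co.HO

namespace Asub

open scoped Classical

/-- three numbers at distance at most `s` in `[-2s, 2s)` lie in one of three intervals -/
theorem cover (s x y z : ℝ) (hx : -(2 * s) ≤ x ∧ x < 2 * s) (hy : -(2 * s) ≤ y ∧ y < 2 * s)
    (hz : -(2 * s) ≤ z ∧ z < 2 * s) (hxy : |x - y| ≤ s) (hxz : |x - z| ≤ s) (hyz : |y - z| ≤ s) :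
    ∃ m : ℕ, m < 3 ∧ (((m : ℝ) - 1) * s - s ≤ x ∧ x < ((m : ℝ) - 1) * s + s) ∧
      (((m : ℝ) - 1) * s - s ≤ y ∧ y < ((m : ℝ) - 1) * s + s) ∧
      (((m : ℝ) - 1) * s - s ≤ z ∧ z < ((m : ℝ) - 1) * s + s) := by
  obtain ⟨a1, a2⟩ := abs_le.1 hxy
  obtain ⟨b1, b2⟩ := abs_le.1 hxz
  obtain ⟨c1, c2⟩ := abs_le.1 hyz
  obtain ⟨x1, x2⟩ := hx
  obtain ⟨y1, y2⟩ := hy
  obtain ⟨z1, z2⟩ := hz
  by_cases h1 : x < -s ∨ y < -s ∨ z < -s
  · refine ⟨0, by norm_num, ?_⟩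
    rcases h1 with h1 | h1 | h1 <;>
      refine ⟨⟨?_, ?_⟩, ⟨?_, ?_⟩, ⟨?_, ?_⟩⟩ <;> norm_num <;> linarith
  · push Not at h1
    obtain ⟨e1, e2, e3⟩ := h1
    by_cases h2 : x < 0 ∨ y < 0 ∨ z < 0
    · refine ⟨1, by norm_num, ?_⟩
      rcases h2 with h2 | h2 | h2 <;>
        refine ⟨⟨?_, ?_⟩, ⟨?_, ?_⟩, ⟨?_, ?_⟩⟩ <;> norm_num <;> linarith
    · push Not at h2
      obtain ⟨f1, f2, f3⟩ := h2
      refine ⟨2, by norm_num, ?_⟩
      refine ⟨⟨?_, ?_⟩, ⟨?_, ?_⟩, ⟨?_, ?_⟩⟩ <;> norm_num <;> linarith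

/-- the centres of the nine squares -/
def cx (k : ℕ) (i : Fin 9) : ℤ := (((i.val / 3 : ℕ) : ℤ) - 1) * 2 ^ k

def cy (k : ℕ) (i : Fin 9) : ℤ := (((i.val % 3 : ℕ) : ℤ) - 1) * 2 ^ k

/-- membership in the square -/
def inSq (k : ℕ) (i : Fin 9) (p : Pt) : Prop :=
  ((cx k i : ℝ) - 2 ^ k ≤ p.1 ∧ p.1 < cx k i + 2 ^ k) ∧
    ((cy k i : ℝ) - 2 ^ k ≤ p.2 ∧ p.2 < cy k i + 2 ^ k)

/-- translation to the origin -/
def tr (k : ℕ) (i : Fin 9) (p : Pt) : Pt := (p.1 - cx k i, p.2 - cy k i)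

theorem tr_inj (k : ℕ) (i : Fin 9) : Function.Injective (tr k i) := by
  intro p q h
  have h1 := congrArg Prod.fst h
  have h2 := congrArg Prod.snd h
  simp only [tr] at h1 h2
  exact Prod.ext (by linarith) (by linarith)

/-- the pieces -/
noncomputable def Q (k : ℕ) (P : Finset Pt) (i : Fin 9) : Finset Pt :=
  (P.filter (inSq k i)).image (tr k i)

theorem exists_sq (k : ℕ) (p q r : Pt)
    (hp : -(2 : ℝ) ^ (k + 1) ≤ p.1 ∧ p.1 < 2 ^ (k + 1) ∧ -(2 : ℝ) ^ (k + 1) ≤ p.2 ∧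
      p.2 < 2 ^ (k + 1))
    (hq : -(2 : ℝ) ^ (k + 1) ≤ q.1 ∧ q.1 < 2 ^ (k + 1) ∧ -(2 : ℝ) ^ (k + 1) ≤ q.2 ∧
      q.2 < 2 ^ (k + 1))
    (hr : -(2 : ℝ) ^ (k + 1) ≤ r.1 ∧ r.1 < 2 ^ (k + 1) ∧ -(2 : ℝ) ^ (k + 1) ≤ r.2 ∧
      r.2 < 2 ^ (k + 1))
    (hpq : ds p q ≤ 2 ^ k) (hpr : ds p r ≤ 2 ^ k) (hqr : ds q r ≤ 2 ^ k) :
    ∃ i : Fin 9, inSq k i p ∧ inSq k i q ∧ inSq k i r := by
  have h2 : (2 : ℝ) ^ (k + 1) = 2 * 2 ^ k := by ring
  rw [h2] at hp hq hr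
  obtain ⟨m, hm, m1, m2, m3⟩ := cover (2 ^ k) p.1 q.1 r.1 ⟨hp.1, hp.2.1⟩ ⟨hq.1, hq.2.1⟩
    ⟨hr.1, hr.2.1⟩ ((le_max_left _ _).trans hpq) ((le_max_left _ _).trans hpr)
    ((le_max_left _ _).trans hqr)
  obtain ⟨l, hl, l1, l2, l3⟩ := cover (2 ^ k) p.2 q.2 r.2 ⟨hp.2.2.1, hp.2.2.2⟩
    ⟨hq.2.2.1, hq.2.2.2⟩ ⟨hr.2.2.1, hr.2.2.2⟩ ((le_max_right _ _).trans hpq)
    ((le_max_right _ _).trans hpr) ((le_max_right _ _).trans hqr)
  have hi : 3 * m + l < 9 := by omega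
  have e1 : (3 * m + l) / 3 = m := by omega
  have e2 : (3 * m + l) % 3 = l := by omega
  have ex : ((cx k ⟨3 * m + l, hi⟩ : ℤ) : ℝ) = ((m : ℝ) - 1) * 2 ^ k := by
    simp only [cx, e1]; push_cast; ring
  have ey : ((cy k ⟨3 * m + l, hi⟩ : ℤ) : ℝ) = ((l : ℝ) - 1) * 2 ^ k := by
    simp only [cy, e2]; push_cast; ring
  refine ⟨⟨3 * m + l, hi⟩, ?_, ?_, ?_⟩
  · unfold inSq; rw [ex, ey]; exact ⟨m1, l1⟩
  · unfold inSq; rw [ex, ey]; exact ⟨m2, l2⟩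
  · unfold inSq; rw [ex, ey]; exact ⟨m3, l3⟩

end Asub

open Asub

open scoped Classical in
theorem I_sub : St_sub := by
  intro K k P hC hB
  refine ⟨Q k P, ?_, ?_, ?_⟩
  · intro i a b
    refine le_trans ?_ (hC (a + cx k i) (b + cy k i))
    refine Finset.card_le_card_of_injOn (fun q => (q.1 + cx k i, q.2 + cy k i)) ?_ ?_
    · intro q hq
      simp only [Finset.coe_filter, Set.mem_ofPred_eq] at hq ⊢
      obtain ⟨hq, ha, hb⟩ := hq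
      simp only [Q, Finset.mem_image, Finset.mem_filter] at hq
      obtain ⟨p, ⟨hp, _⟩, rfl⟩ := hq
      refine ⟨?_, ?_, ?_⟩
      · simpa [tr] using hp
      · rw [Int.floor_add_intCast, ha]
      · rw [Int.floor_add_intCast, hb]
    · intro q _ q' _ h
      have h1 := congrArg Prod.fst h
      have h2 := congrArg Prod.snd h
      simp only at h1 h2
      exact Prod.ext (by linarith) (by linarith)
  · intro i q hq
    simp only [Q, Finset.mem_image, Finset.mem_filter] at hq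
    obtain ⟨p, ⟨_, hs⟩, rfl⟩ := hq
    obtain ⟨⟨s1, s2⟩, s3, s4⟩ := hs
    simp only [tr]
    refine ⟨?_, ?_, ?_, ?_⟩ <;> linarith
  · intro A
    set T := (tri P A).filter fun t => ds t.1 t.2.1 ≤ 2 ^ k ∧ ds t.1 t.2.2 ≤ 2 ^ k ∧
        ds t.2.1 t.2.2 ≤ 2 ^ k with hT
    have hcov : T ⊆ Finset.univ.biUnion fun i : Fin 9 =>
        T.filter fun t => inSq k i t.1 ∧ inSq k i t.2.1 ∧ inSq k i t.2.2 := by
      intro t ht
      have ht' := ht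
      simp only [hT, tri, Finset.mem_filter, Finset.mem_product] at ht'
      obtain ⟨⟨⟨h1, h2, h3⟩, _⟩, h4, h5, h6⟩ := ht'
      obtain ⟨i, hi⟩ := exists_sq k t.1 t.2.1 t.2.2 (hB _ h1) (hB _ h2) (hB _ h3) h4 h5 h6
      exact Finset.mem_biUnion.2 ⟨i, Finset.mem_univ i, Finset.mem_filter.2 ⟨ht, hi⟩⟩
    refine (Finset.card_le_card hcov).trans (Finset.card_biUnion_le.trans ?_)
    refine Finset.sum_le_sum fun i _ => ?_
    refine Finset.card_le_card_of_injOn (fun t => (tr k i t.1, tr k i t.2.1, tr k i t.2.2)) ?_ ?_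
    · intro t ht
      simp only [Finset.coe_filter, Set.mem_ofPred_eq, hT, tri, Finset.mem_filter,
        Finset.mem_product] at ht
      obtain ⟨⟨⟨⟨h1, h2, h3⟩, hA⟩, _⟩, i1, i2, i3⟩ := ht
      simp only [tri, Finset.coe_filter, Set.mem_ofPred_eq, Finset.mem_product]
      refine ⟨⟨?_, ?_, ?_⟩, ?_⟩
      · exact Finset.mem_image_of_mem _ (Finset.mem_filter.2 ⟨h1, i1⟩)
      · exact Finset.mem_image_of_mem _ (Finset.mem_filter.2 ⟨h2, i2⟩)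
      · exact Finset.mem_image_of_mem _ (Finset.mem_filter.2 ⟨h3, i3⟩)
      · rw [← hA]
        congr 1
        simp only [ar, tr]
        ring
    · intro t _ t' _ h
      have h1 := congrArg Prod.fst h
      have h2 := congrArg (fun z => z.2.1) h
      have h3 := congrArg (fun z => z.2.2) h
      exact Prod.ext (tr_inj k i h1) (Prod.ext (tr_inj k i h2) (tr_inj k i h3))

end Pool.Agent.Work.MP_916cc8_co.HO
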