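import Pool.Agent.Work.MP_916cc8_co.HO.Stmts

set_option autoImplicit false

namespace Pool.Agent.Work.MP_916cc8_co.HO

namespace Asum1

open scoped Classical

theorem ds_lt {k : ℕ} {P : Finset Pt} (hB : Box (2 ^ k) P) {p q : Pt} (hp : p ∈ P)
    (hq : q ∈ P) : ds p q ≤ 2 ^ (k + 1) := by
  obtain ⟨a1, a2, a3, a4⟩ := hB p hp
  obtain ⟨b1, b2, b3, b4⟩ := hB q hq
  have e : (2 : ℝ) ^ (k + 1) = 2 * 2 ^ k := by rw [pow_succ]; ring
  rw [e]
  refine max_le ?_ ?_ <;> rw [abs_le] <;> constructor <;> linarith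

/-- the dyadic scale of a distance -/
theorem scale {k : ℕ} {d : ℝ} (h1 : 1 ≤ d) (h2 : d ≤ 2 ^ (k + 1)) :
    ∃ j ∈ Finset.range (k + 2), d ≤ 2 ^ j ∧ (2 : ℝ) ^ j ≤ 2 * d := by
  have hex : ∃ j : ℕ, d ≤ (2 : ℝ) ^ j := ⟨k + 1, h2⟩
  refine ⟨Nat.find hex, ?_, Nat.find_spec hex, ?_⟩
  · rw [Finset.mem_range]
    exact Nat.lt_succ_of_le (Nat.find_min' hex h2)
  · rcases Nat.eq_zero_or_pos (Nat.find hex) with h0 | h0
    · rw [h0, pow_zero]; linarith
    · have h3 := Nat.find_min hex (m := Nat.find hex - 1) (by omega)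
      push Not at h3
      have h4 : (2 : ℝ) ^ Nat.find hex = 2 * 2 ^ (Nat.find hex - 1) := by
        rw [← pow_succ']
        congr 1
        omega
      rw [h4]
      linarith

theorem main (hnear : St_near) {K k : ℕ} {P : Finset Pt} (hC : Cells K P) (hB : Box (2 ^ k) P)
    {p : Pt} (hp : p ∈ P) (φ : ℝ → ℝ) (g : ℕ → ℝ) (hg : ∀ j, 0 ≤ g j)
    (h : ∀ (d : ℝ) (j : ℕ), 1 ≤ d → (2 : ℝ) ^ j ≤ 2 * d → φ d ≤ g j) :
    ∑ q ∈ P.filter (fun q => 1 ≤ ds p q), φ (ds p q) ≤
      ∑ j ∈ Finset.range (k + 2), 16 * K * (2 ^ j) ^ 2 * g j := by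
  calc ∑ q ∈ P.filter (fun q => 1 ≤ ds p q), φ (ds p q)
      ≤ ∑ q ∈ P.filter (fun q => 1 ≤ ds p q), ∑ j ∈ Finset.range (k + 2),
          (if ds p q ≤ 2 ^ j then g j else 0) := by
        refine Finset.sum_le_sum fun q hq => ?_
        rw [Finset.mem_filter] at hq
        obtain ⟨j, hj, h1, h2⟩ := scale hq.2 (ds_lt hB hp hq.1)
        refine (h _ j hq.2 h2).trans ?_
        have h3 : (if ds p q ≤ 2 ^ j then g j else 0) = g j := if_pos h1
        rw [← h3]
        refine Finset.single_le_sum (f := fun j => if ds p q ≤ 2 ^ j then g j else 0)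
          (fun i _ => ?_) hj
        show 0 ≤ if ds p q ≤ 2 ^ i then g i else 0
        split_ifs
        · exact hg i
        · exact le_rfl
    _ = ∑ j ∈ Finset.range (k + 2), ∑ q ∈ P.filter (fun q => 1 ≤ ds p q),
          (if ds p q ≤ 2 ^ j then g j else 0) := Finset.sum_comm
    _ ≤ ∑ j ∈ Finset.range (k + 2), 16 * K * (2 ^ j) ^ 2 * g j := by
        refine Finset.sum_le_sum fun j _ => ?_
        rw [← Finset.sum_filter, Finset.sum_const, nsmul_eq_mul]
        refine mul_le_mul_of_nonneg_right ?_ (hg j)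
        refine le_trans ?_ (hnear K P hC p (2 ^ j) (one_le_pow₀ (by norm_num)))
        exact_mod_cast Finset.card_le_card (by
          intro q hq
          rw [Finset.mem_filter, Finset.mem_filter] at hq
          rw [Finset.mem_filter]
          exact ⟨hq.1.1, hq.2⟩)

theorem geom (n : ℕ) : ∑ j ∈ Finset.range n, (2 : ℝ) ^ j ≤ 2 ^ n := by
  induction n with
  | zero => simp
  | succ n ih =>
    rw [Finset.sum_range_succ, pow_succ]
    linarith

end Asum1

theorem I_sum1 (hnear : St_near) : St_sum1 := by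
  intro K k P hC hB p hp
  refine (Asum1.main hnear hC hB hp (fun d => 1 / d) (fun j => 2 / 2 ^ j)
    (fun j => by positivity) ?_).trans ?_
  · intro d j h1 h2
    show 1 / d ≤ 2 / 2 ^ j
    rw [div_le_div_iff₀ (by linarith) (by positivity)]
    linarith
  · have h1 : ∀ j ∈ Finset.range (k + 2), 16 * (K : ℝ) * (2 ^ j) ^ 2 * (2 / 2 ^ j) =
        32 * K * 2 ^ j := by
      intro j _
      have : (2 : ℝ) ^ j ≠ 0 := by positivity
      field_simp
      ring
    rw [Finset.sum_congr rfl h1, ← Finset.mul_sum]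
    have h2 := Asum1.geom (k + 2)
    have h3 : (2 : ℝ) ^ (k + 2) = 4 * 2 ^ k := by rw [pow_add]; ring
    have h4 : (0 : ℝ) ≤ K := Nat.cast_nonneg K
    calc 32 * (K : ℝ) * ∑ j ∈ Finset.range (k + 2), (2 : ℝ) ^ j
        ≤ 32 * K * (4 * 2 ^ k) := mul_le_mul_of_nonneg_left (by rw [← h3]; exact h2) (by positivity)
      _ = 128 * K * 2 ^ k := by ring

theorem I_sum2 (hnear : St_near) : St_sum2 := by
  intro K k P hC hB p hp
  refine (Asum1.main hnear hC hB hp (fun d => 1 / d ^ 2) (fun j => 4 / (2 ^ j) ^ 2)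
    (fun j => by positivity) ?_).trans ?_
  · intro d j h1 h2
    show 1 / d ^ 2 ≤ 4 / (2 ^ j) ^ 2
    rw [div_le_div_iff₀ (by positivity) (by positivity)]
    have h3 : (0 : ℝ) ≤ 2 ^ j := by positivity
    nlinarith
  · have h1 : ∀ j ∈ Finset.range (k + 2), 16 * (K : ℝ) * (2 ^ j) ^ 2 * (4 / (2 ^ j) ^ 2) =
        64 * K := by
      intro j _
      have : (2 : ℝ) ^ j ≠ 0 := by positivity
      field_simp
      ring
    rw [Finset.sum_congr rfl h1, Finset.sum_const, Finset.card_range, nsmul_eq_mul]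
    push_cast
    apply le_of_eq
    ring

end Pool.Agent.Work.MP_916cc8_co.HO
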