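import Pool.Agent.Work.MP_916cc8_co.HO.Final
import Pool.Agent.Work.MP_916cc8_co.HO.P_col
import Pool.Agent.Work.MP_916cc8_co.HO.P_npt
import Pool.Agent.Work.MP_916cc8_co.HO.P_strip
import Pool.Agent.Work.MP_916cc8_co.HO.P_sum1
import Pool.Agent.Work.MP_916cc8_co.HO.P_bint
import Pool.Agent.Work.MP_916cc8_co.HO.P_a0
import Pool.Agent.Work.MP_916cc8_co.HO.P_a2
import Pool.Agent.Work.MP_916cc8_co.HO.P_S1
import Pool.Agent.Work.MP_916cc8_co.HO.P_line
import Pool.Agent.Work.MP_916cc8_co.HO.P_pt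
import Pool.Agent.Work.MP_916cc8_co.HO.P_fix
import Pool.Agent.Work.MP_916cc8_co.HO.P_rich
import Pool.Agent.Work.MP_916cc8_co.HO.P_N
import Pool.Agent.Work.MP_916cc8_co.HO.P_T1
import Pool.Agent.Work.MP_916cc8_co.HO.P_U
import Pool.Agent.Work.MP_916cc8_co.HO.P_fix2
import Pool.Agent.Work.MP_916cc8_co.HO.P_T2
import Pool.Agent.Work.MP_916cc8_co.HO.P_X
import Pool.Agent.Work.MP_916cc8_co.HO.P_diam
import Pool.Agent.Work.MP_916cc8_co.HO.P_sub
import Pool.Agent.Work.MP_916cc8_co.HO.P_all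

set_option autoImplicit false

/-! Assembly of the theorem on homogeneous sets. -/

namespace Pool.Agent.Work.MP_916cc8_co.HO

theorem near' : St_near := I_near I_rect

theorem strip' : St_strip := I_strip I_col

theorem S1' : St_S1 := I_S1 near' (I_sum1 near') I_a0 I_a1

theorem S2' : St_S2 := I_S2 near' (I_sum2 near') I_a0 (I_a2 I_a0)

theorem fix' : St_fix := I_fix (I_pt strip') I_bdiff

theorem rich' : St_rich := I_rich I_line fix' I_bdiff I_a0 S2'

theorem N' : St_N := I_N strip' I_line rich'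

theorem T1' : St_T1 := I_T1 I_line I_npt N'

theorem fix2' : St_fix2 := I_fix2 I_line I_bint

theorem T2' : St_T2 := I_T2 I_line I_npt I_bint I_a0 S1' I_U fix2'

theorem X' : St_X := I_X T1' T2'

theorem I_all' : St_all := I_all I_npt X' I_diam I_sub

end Pool.Agent.Work.MP_916cc8_co.HO
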