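import Pool.Agent.Work.MP_916cc8_co.HO.Stmts

set_option autoImplicit false

/-! Scaling: from the normalised statement to unit area triangles. -/

namespace Pool.Agent.Work.MP_916cc8_co.HO

open Finset

open scoped Classical

theorem scale (hall : St_all) : ∃ C : ℝ, 0 < C ∧ ∀ (N K : ℕ) (δ : ℝ) (c : ℝ × ℝ)
    (P : Finset (ℝ × ℝ)), 1 ≤ N → 0 < δ →
    (∀ p ∈ P, (c.1 ≤ p.1 ∧ p.1 < c.1 + N * δ) ∧ c.2 ≤ p.2 ∧ p.2 < c.2 + N * δ) →
    (∀ i j : ℤ, (P.filter fun p => (c.1 + i * δ ≤ p.1 ∧ p.1 < c.1 + (i + 1) * δ) ∧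
      c.2 + j * δ ≤ p.2 ∧ p.2 < c.2 + (j + 1) * δ).card ≤ K) →
    (((P ×ˢ P ×ˢ P).filter fun t => |ar t.1 t.2.1 t.2.2| = 2).card : ℝ) ≤
      C * (K : ℝ) ^ 4 * (N : ℝ) ^ 4 * (1 + Real.log N) ^ 2 * (1 + δ ^ (-(1 : ℝ) / 3)) := by
  obtain ⟨C, hC, H⟩ := hall
  refine ⟨288 * C, by positivity, fun N K δ c P hN hδ hP hcell => ?_⟩
  have hN0 : (0 : ℝ) < N := by exact_mod_cast hN
  have hN1 : (1 : ℝ) ≤ N := by exact_mod_cast hN
  have hlog : 0 ≤ Real.log N := Real.log_nonneg hN1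
  have hδp : 0 < δ ^ (-(1 : ℝ) / 3) := Real.rpow_pos_of_pos hδ _
  rcases P.eq_empty_or_nonempty with rfl | hne
  · simp only [Finset.product_empty, Finset.filter_empty, Finset.card_empty, Nat.cast_zero]
    positivity
  -- K is positive
  obtain ⟨p₀, hp₀⟩ := hne
  let φ : ℝ × ℝ → ℝ × ℝ := fun p => ((p.1 - c.1) / δ, (p.2 - c.2) / δ)
  have hφ : Function.Injective φ := by
    intro x y hxy
    have h1 := congrArg Prod.fst hxy
    have h2 := congrArg Prod.snd hxy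
    simp only [φ] at h1 h2
    rw [div_left_inj' hδ.ne'] at h1 h2
    exact Prod.ext (by linarith) (by linarith)
  have hfl : ∀ (x z : ℝ) (i : ℤ), ⌊(x - z) / δ⌋ = i ↔ z + i * δ ≤ x ∧ x < z + (i + 1) * δ := by
    intro x z i
    rw [Int.floor_eq_iff, le_div_iff₀ hδ, div_lt_iff₀ hδ]
    constructor
    · rintro ⟨h1, h2⟩
      exact ⟨by linarith, by linarith⟩
    · rintro ⟨h1, h2⟩
      exact ⟨by linarith, by linarith⟩
  set P' := P.image φ with hP'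
  have hcells : Cells K P' := by
    intro i j
    have h1 : (P'.filter fun p => ⌊p.1⌋ = i ∧ ⌊p.2⌋ = j) = (P.filter fun p =>
        (c.1 + i * δ ≤ p.1 ∧ p.1 < c.1 + (i + 1) * δ) ∧
          c.2 + j * δ ≤ p.2 ∧ p.2 < c.2 + (j + 1) * δ).image φ := by
      ext x
      simp only [hP', Finset.mem_filter, Finset.mem_image]
      constructor
      · rintro ⟨⟨p, hp, rfl⟩, h2, h3⟩
        exact ⟨p, ⟨hp, (hfl _ _ _).1 h2, (hfl _ _ _).1 h3⟩, rfl⟩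
      · rintro ⟨p, ⟨hp, h2, h3⟩, rfl⟩
        exact ⟨⟨p, hp, rfl⟩, (hfl _ _ _).2 h2, (hfl _ _ _).2 h3⟩
    rw [h1]
    exact Finset.card_image_le.trans (hcell i j)
  have hK : 1 ≤ K := by
    have h1 := hcell ⌊(p₀.1 - c.1) / δ⌋ ⌊(p₀.2 - c.2) / δ⌋
    refine le_trans (Finset.card_pos.2 ⟨p₀, Finset.mem_filter.2 ⟨hp₀, ?_, ?_⟩⟩) h1
    · exact (hfl _ _ _).1 rfl
    · exact (hfl _ _ _).1 rfl
  -- the power of two
  obtain ⟨k, hk1, hk2⟩ : ∃ k : ℕ, N ≤ 2 ^ k ∧ 2 ^ k ≤ 2 * N := by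
    refine ⟨Nat.clog 2 N, Nat.le_pow_clog (by norm_num) N, ?_⟩
    rcases Nat.lt_or_ge 1 N with h | h
    · have h2 : 2 ^ (Nat.clog 2 N - 1) < N := by
        have := Nat.pow_pred_clog_lt_self (b := 2) (by norm_num) h
        simpa using this
      have h3 : 1 ≤ Nat.clog 2 N := Nat.clog_pos (by norm_num) h
      have h4 : 2 ^ (Nat.clog 2 N) = 2 * 2 ^ (Nat.clog 2 N - 1) := by
        rw [← pow_succ']
        congr 1
        omega
      omega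
    · have : N = 1 := by omega
      subst this
      norm_num
  have hk1' : (N : ℝ) ≤ 2 ^ k := by exact_mod_cast hk1
  have hk2' : (2 : ℝ) ^ k ≤ 2 * N := by exact_mod_cast hk2
  have hbox : Box (2 ^ k) P' := by
    intro x hx
    obtain ⟨p, hp, rfl⟩ := Finset.mem_image.1 hx
    obtain ⟨⟨h1, h2⟩, h3, h4⟩ := hP p hp
    simp only [φ]
    have e1 : 0 ≤ (p.1 - c.1) / δ := div_nonneg (by linarith) hδ.le
    have e2 : (p.1 - c.1) / δ < N := by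
      rw [div_lt_iff₀ hδ]
      linarith
    have e3 : 0 ≤ (p.2 - c.2) / δ := div_nonneg (by linarith) hδ.le
    have e4 : (p.2 - c.2) / δ < N := by
      rw [div_lt_iff₀ hδ]
      linarith
    have e5 : (0 : ℝ) < 2 ^ k := by positivity
    exact ⟨by linarith, by linarith, by linarith, by linarith⟩
  have hA : 0 < (δ ^ 2)⁻¹ := by positivity
  have h1 := H K k P' hK hcells hbox (δ ^ 2)⁻¹ hA
  have h2 : ((P ×ˢ P ×ˢ P).filter fun t => |ar t.1 t.2.1 t.2.2| = 2).card ≤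
      (tri P' (δ ^ 2)⁻¹).card := by
    refine Finset.card_le_card_of_injOn (fun t => (φ t.1, φ t.2.1, φ t.2.2)) ?_ ?_
    · rintro ⟨p, q, r⟩ ht
      obtain ⟨h3, h4⟩ := Finset.mem_filter.1 (Finset.mem_coe.1 ht)
      rw [Finset.mem_product, Finset.mem_product] at h3
      refine Finset.mem_coe.2 (Finset.mem_filter.2 ⟨?_, ?_⟩)
      · exact Finset.mem_product.2 ⟨Finset.mem_image_of_mem _ h3.1, Finset.mem_product.2
          ⟨Finset.mem_image_of_mem _ h3.2.1, Finset.mem_image_of_mem _ h3.2.2⟩⟩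
      · simp only at h4 ⊢
        have e : ar (φ p) (φ q) (φ r) = ar p q r * (δ ^ 2)⁻¹ := by
          simp only [ar, φ]
          field_simp
          ring
        rw [e, abs_mul, h4, abs_of_pos hA]
    · rintro ⟨p, q, r⟩ _ ⟨p', q', r'⟩ _ h
      simp only [Prod.mk.injEq] at h
      rw [hφ h.1, hφ h.2.1, hφ h.2.2]
  have h3 : (((P ×ˢ P ×ˢ P).filter fun t => |ar t.1 t.2.1 t.2.2| = 2).card : ℝ) ≤
      ((tri P' (δ ^ 2)⁻¹).card : ℝ) := by exact_mod_cast h2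
  -- the numbers
  have h4 : ((2 : ℝ) ^ k) ^ 4 ≤ 16 * (N : ℝ) ^ 4 := by
    calc ((2 : ℝ) ^ k) ^ 4 ≤ (2 * (N : ℝ)) ^ 4 := pow_le_pow_left₀ (by positivity) hk2' 4
      _ = 16 * (N : ℝ) ^ 4 := by ring
  have h5 : (k : ℝ) + 2 ≤ 3 * (1 + Real.log N) := by
    have e1 : (k : ℝ) * Real.log 2 ≤ Real.log 2 + Real.log N := by
      rw [← Real.log_pow, ← Real.log_mul (by norm_num) hN0.ne']
      exact Real.log_le_log (by positivity) hk2'
    have e2 := Real.log_two_gt_d9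
    have e3 : (k : ℝ) ≤ 1 + 2 * Real.log N := by
      by_contra hcon
      push Not at hcon
      nlinarith
    linarith
  have h6 : ((k : ℝ) + 2) ^ 2 ≤ 9 * (1 + Real.log N) ^ 2 := by
    calc ((k : ℝ) + 2) ^ 2 ≤ (3 * (1 + Real.log N)) ^ 2 := pow_le_pow_left₀ (by positivity) h5 2
      _ = 9 * (1 + Real.log N) ^ 2 := by ring
  have h7 : (1 + (δ ^ 2)⁻¹) ^ ((1 : ℝ) / 6) ≤ 2 * (1 + δ ^ (-(1 : ℝ) / 3)) := by
    have e1 : ((δ ^ 2)⁻¹) ^ ((1 : ℝ) / 6) = δ ^ (-(1 : ℝ) / 3) := by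
      rw [← Real.rpow_natCast δ 2, ← Real.rpow_neg hδ.le, ← Real.rpow_mul hδ.le]
      congr 1
      norm_num
    have e2 : (2 : ℝ) ^ ((1 : ℝ) / 6) ≤ 2 := by
      calc (2 : ℝ) ^ ((1 : ℝ) / 6) ≤ 2 ^ (1 : ℝ) :=
            Real.rpow_le_rpow_of_exponent_le (by norm_num) (by norm_num)
        _ = 2 := Real.rpow_one 2
    rcases le_total 1 ((δ ^ 2)⁻¹) with h8 | h8
    · calc (1 + (δ ^ 2)⁻¹) ^ ((1 : ℝ) / 6) ≤ (2 * (δ ^ 2)⁻¹) ^ ((1 : ℝ) / 6) :=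
            Real.rpow_le_rpow (by positivity) (by linarith) (by norm_num)
        _ = 2 ^ ((1 : ℝ) / 6) * δ ^ (-(1 : ℝ) / 3) := by
            rw [Real.mul_rpow (by norm_num) hA.le, e1]
        _ ≤ 2 * δ ^ (-(1 : ℝ) / 3) := mul_le_mul_of_nonneg_right e2 hδp.le
        _ ≤ _ := by linarith
    · calc (1 + (δ ^ 2)⁻¹) ^ ((1 : ℝ) / 6) ≤ 2 ^ ((1 : ℝ) / 6) :=
            Real.rpow_le_rpow (by positivity) (by linarith) (by norm_num)
        _ ≤ 2 := e2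
        _ ≤ _ := by linarith
  have h8 : 0 ≤ (1 + (δ ^ 2)⁻¹) ^ ((1 : ℝ) / 6) := by positivity
  calc (((P ×ˢ P ×ˢ P).filter fun t => |ar t.1 t.2.1 t.2.2| = 2).card : ℝ)
      ≤ C * K ^ 4 * (2 ^ k) ^ 4 * (k + 2) ^ 2 * (1 + (δ ^ 2)⁻¹) ^ ((1 : ℝ) / 6) := h3.trans h1
    _ ≤ C * K ^ 4 * (16 * (N : ℝ) ^ 4) * (9 * (1 + Real.log N) ^ 2) *
        (2 * (1 + δ ^ (-(1 : ℝ) / 3))) := by
      gcongr
    _ = 288 * C * (K : ℝ) ^ 4 * (N : ℝ) ^ 4 * (1 + Real.log N) ^ 2 *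
        (1 + δ ^ (-(1 : ℝ) / 3)) := by ring

end Pool.Agent.Work.MP_916cc8_co.HO
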