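import Pool.Agent.Work.MP_916cc8_co.HO.Stmts

set_option autoImplicit false

/-! Item all: the theorem in normalised form. -/

namespace Pool.Agent.Work.MP_916cc8_co.HO

open MeasureTheory

open scoped Classical

namespace Aall

theorem tri_card_le (P : Finset Pt) (A : ℝ) : ((tri P A).card : ℝ) ≤ (P.card : ℝ) ^ 3 := by
  have h : (tri P A).card ≤ (P ×ˢ P ×ˢ P).card := Finset.card_filter_le _ _
  rw [Finset.card_product, Finset.card_product] at h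
  have h2 : ((tri P A).card : ℝ) ≤ (P.card : ℝ) * ((P.card : ℝ) * (P.card : ℝ)) := by
    exact_mod_cast h
  calc _ ≤ _ := h2
    _ = _ := by ring

end Aall

open Aall in
theorem I_all (hnpt : St_npt) (hX : St_X) (hdiam : St_diam) (hsub : St_sub) : St_all := by
  obtain ⟨C1, hC1, H⟩ := hdiam hX
  set M : ℝ := max (16 / 7 * C1) 64 with hM
  have hM1 : 16 / 7 * C1 ≤ M := le_max_left _ _
  have hM2 : 64 ≤ M := le_max_right _ _
  refine ⟨M, by linarith, ?_⟩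
  intro K k
  induction k with
  | zero =>
    intro P hK hP hB A hA
    have h1 := hnpt K 0 P hP hB
    have h2 := tri_card_le P A
    have hK1 : (1 : ℝ) ≤ K := by exact_mod_cast hK
    have hG : 1 ≤ (1 + A) ^ ((1 : ℝ) / 6) := Real.one_le_rpow (by linarith) (by norm_num)
    have h3 : (P.card : ℝ) ≤ 4 * K := by simpa using h1
    have h4 : (P.card : ℝ) ^ 3 ≤ (4 * K) ^ 3 := pow_le_pow_left₀ (Nat.cast_nonneg _) h3 3
    have h5 : ((4 * K : ℝ)) ^ 3 ≤ M * K ^ 4 * 4 := by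
      have h6 : (K : ℝ) ^ 3 ≤ (K : ℝ) ^ 4 := pow_le_pow_right₀ hK1 (by norm_num)
      have h7 : (0 : ℝ) ≤ (K : ℝ) ^ 4 := by positivity
      calc ((4 * K : ℝ)) ^ 3 = 64 * (K : ℝ) ^ 3 := by ring
        _ ≤ 64 * (K : ℝ) ^ 4 := by linarith
        _ ≤ M * (K : ℝ) ^ 4 := mul_le_mul_of_nonneg_right hM2 h7
        _ ≤ M * K ^ 4 * 4 := by nlinarith [mul_nonneg (by linarith : (0 : ℝ) ≤ M) h7]
    have h8 : 0 ≤ M * K ^ 4 * 4 := by positivity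
    have h9 : M * (K : ℝ) ^ 4 * (2 ^ 0) ^ 4 * (((0 : ℕ) : ℝ) + 2) ^ 2 * (1 + A) ^ ((1 : ℝ) / 6) =
        M * K ^ 4 * 4 * (1 + A) ^ ((1 : ℝ) / 6) := by
      norm_num
    rw [h9]
    calc ((tri P A).card : ℝ) ≤ M * K ^ 4 * 4 := h2.trans (h4.trans h5)
      _ = M * K ^ 4 * 4 * 1 := by ring
      _ ≤ _ := mul_le_mul_of_nonneg_left hG h8
  | succ k ih =>
    intro P hK hP hB A hA
    set G : ℝ := (1 + A) ^ ((1 : ℝ) / 6) with hGdef
    have hG : 1 ≤ G := Real.one_le_rpow (by linarith) (by norm_num)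
    have h1 := H K (k + 1) P hK hP hB A hA
    obtain ⟨Q, hQ1, hQ2, hQ3⟩ := hsub K k P hP hB
    have h2 := hQ3 A
    have hp : (2 : ℝ) ^ (k + 1) / 2 = 2 ^ k := by rw [pow_succ]; ring
    rw [hp] at h1
    have hsplit := Finset.card_filter_add_card_filter_not (s := tri P A)
      (fun t : Pt × Pt × Pt => 2 ^ k < ds t.1 t.2.1 ∨ 2 ^ k < ds t.1 t.2.2 ∨
      2 ^ k < ds t.2.1 t.2.2)
    have hsub' : (tri P A).filter (fun t : Pt × Pt × Pt => ¬ (2 ^ k < ds t.1 t.2.1 ∨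
        2 ^ k < ds t.1 t.2.2 ∨ 2 ^ k < ds t.2.1 t.2.2)) ⊆
        (tri P A).filter fun t => ds t.1 t.2.1 ≤ 2 ^ k ∧ ds t.1 t.2.2 ≤ 2 ^ k ∧
        ds t.2.1 t.2.2 ≤ 2 ^ k := by
      intro t ht
      rw [Finset.mem_filter] at ht ⊢
      obtain ⟨ht1, ht2⟩ := ht
      push Not at ht2
      exact ⟨ht1, ht2⟩
    have h3 := (Finset.card_le_card hsub').trans h2
    have h4 : (((tri P A).filter (fun t : Pt × Pt × Pt => ¬ (2 ^ k < ds t.1 t.2.1 ∨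
        2 ^ k < ds t.1 t.2.2 ∨ 2 ^ k < ds t.2.1 t.2.2))).card : ℝ) ≤
        ∑ i, ((tri (Q i) A).card : ℝ) := by exact_mod_cast h3
    have h5 : ∑ i, ((tri (Q i) A).card : ℝ) ≤
        ∑ _i : Fin 9, M * K ^ 4 * (2 ^ k) ^ 4 * ((k : ℝ) + 2) ^ 2 * G :=
      Finset.sum_le_sum fun i _ => ih (Q i) hK (hQ1 i) (hQ2 i) A hA
    rw [Finset.sum_const, Finset.card_univ, Fintype.card_fin, nsmul_eq_mul] at h5
    have h6 : ((tri P A).card : ℝ) =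
        (((tri P A).filter (fun t : Pt × Pt × Pt => 2 ^ k < ds t.1 t.2.1 ∨
          2 ^ k < ds t.1 t.2.2 ∨ 2 ^ k < ds t.2.1 t.2.2)).card : ℝ) +
        (((tri P A).filter (fun t : Pt × Pt × Pt => ¬ (2 ^ k < ds t.1 t.2.1 ∨
          2 ^ k < ds t.1 t.2.2 ∨ 2 ^ k < ds t.2.1 t.2.2))).card : ℝ) := by
      exact_mod_cast hsplit.symm
    set X : ℝ := (K : ℝ) ^ 4 * (2 ^ k) ^ 4 * G with hXdef
    have hX0 : 0 ≤ X := by positivity
    have e1 : C1 * (K : ℝ) ^ 4 * (2 ^ (k + 1)) ^ 4 * (((k + 1 : ℕ) : ℝ) + 2) ^ 2 * G =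
        16 * C1 * ((k : ℝ) + 3) ^ 2 * X := by
      rw [hXdef, pow_succ (2 : ℝ) k]; push_cast; ring
    have e2 : ((9 : ℕ) : ℝ) * (M * (K : ℝ) ^ 4 * (2 ^ k) ^ 4 * ((k : ℝ) + 2) ^ 2 * G) =
        9 * M * ((k : ℝ) + 2) ^ 2 * X := by
      rw [hXdef]; push_cast; ring
    have e3 : M * (K : ℝ) ^ 4 * (2 ^ (k + 1)) ^ 4 * (((k + 1 : ℕ) : ℝ) + 2) ^ 2 * G =
        16 * M * ((k : ℝ) + 3) ^ 2 * X := by
      rw [hXdef, pow_succ (2 : ℝ) k]; push_cast; ring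
    rw [e1] at h1
    rw [e2] at h5
    rw [e3, h6]
    have hk0 : (0 : ℝ) ≤ k := Nat.cast_nonneg k
    have h7 : ((k : ℝ) + 2) ^ 2 ≤ ((k : ℝ) + 3) ^ 2 := by nlinarith
    have h8 : 16 * C1 * ((k : ℝ) + 3) ^ 2 ≤ 7 * M * ((k : ℝ) + 3) ^ 2 :=
      mul_le_mul_of_nonneg_right (by linarith) (by positivity)
    have h9 : 9 * M * ((k : ℝ) + 2) ^ 2 ≤ 9 * M * ((k : ℝ) + 3) ^ 2 :=
      mul_le_mul_of_nonneg_left h7 (by linarith)
    calc _ ≤ 16 * C1 * ((k : ℝ) + 3) ^ 2 * X + 9 * M * ((k : ℝ) + 2) ^ 2 * X :=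
          add_le_add h1 (h4.trans h5)
      _ = (16 * C1 * ((k : ℝ) + 3) ^ 2 + 9 * M * ((k : ℝ) + 2) ^ 2) * X := by ring
      _ ≤ (7 * M * ((k : ℝ) + 3) ^ 2 + 9 * M * ((k : ℝ) + 3) ^ 2) * X :=
          mul_le_mul_of_nonneg_right (add_le_add h8 h9) hX0
      _ = _ := by ring

end Pool.Agent.Work.MP_916cc8_co.HO
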