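import Pool.Agent.Work.MP_916cc8_co.HO.Stmts

/-!
# Item pt: a rich strip differs much from its translates
-/

set_option autoImplicit false

namespace Pool.Agent.Work.MP_916cc8_co.HO

namespace Apt

/-- the strips `b + 3 W j` (`j < J`) are disjoint and lie in one strip of half-width `1` -/
theorem sumF_le (P : Finset Pt) (J : ℕ) (W a b : ℝ) (hW : 0 < W) (hW8 : W ≤ 1 / 8)
    (hJW : 3 * W * J ≤ 1) :
    ∑ j ∈ Finset.range J, F P W a (b + 3 * W * j) ≤ F P 1 a (b + 1 / 2) := by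
  classical
  unfold F
  rw [← Finset.card_biUnion]
  · apply Finset.card_le_card
    intro p hp
    simp only [Finset.mem_biUnion, Finset.mem_range, Finset.mem_filter] at hp ⊢
    obtain ⟨j, hj, hpP, habs⟩ := hp
    refine ⟨hpP, ?_⟩
    rw [abs_le] at habs ⊢
    have hj0 : (0 : ℝ) ≤ j := Nat.cast_nonneg j
    have hj1 : (j : ℝ) + 1 ≤ J := by exact_mod_cast hj
    have h1 : 3 * W * ((j : ℝ) + 1) ≤ 3 * W * J := by
      apply mul_le_mul_of_nonneg_left hj1; positivity
    have h0 : 0 ≤ 3 * W * (j : ℝ) := by positivity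
    constructor
    · linarith [habs.1]
    · nlinarith [habs.2]
  · intro i _ j _ hij
    rw [Function.onFun, Finset.disjoint_left]
    intro p hp hq
    simp only [Finset.mem_filter] at hp hq
    have h1 := abs_le.1 hp.2
    have h2 := abs_le.1 hq.2
    rcases lt_or_gt_of_ne hij with h | h
    · have h3 : (i : ℝ) + 1 ≤ j := by exact_mod_cast h
      have h4 : 3 * W * ((i : ℝ) + 1) ≤ 3 * W * j := by
        apply mul_le_mul_of_nonneg_left h3; positivity
      nlinarith [h1.1, h1.2, h2.1, h2.2]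
    · have h3 : (j : ℝ) + 1 ≤ i := by exact_mod_cast h
      have h4 : 3 * W * ((j : ℝ) + 1) ≤ 3 * W * i := by
        apply mul_le_mul_of_nonneg_left h3; positivity
      nlinarith [h1.1, h1.2, h2.1, h2.2]

end Apt

theorem I_pt (hstrip : St_strip) : St_pt := by
  classical
  intro K k J P hC hB W a b r hW hW8 ha hJ hJW hr hrF
  have hJ0 : (0 : ℝ) < J := by exact_mod_cast hJ
  have h1 : (∑ j ∈ Finset.range J, (F P W a (b + 3 * W * j) : ℝ)) ≤ F P 1 a (b + 1 / 2) := by
    exact_mod_cast Apt.sumF_le P J W a b hW hW8 hJW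
  have h2 : (F P 1 a (b + 1 / 2) : ℝ) ≤ 4 * K * 2 ^ k * (1 + 4) :=
    hstrip K k P hC hB 1 a (b + 1 / 2) (by norm_num) ha
  have h3 : (J : ℝ) * r ≤ J * F P W a b := mul_le_mul_of_nonneg_left hrF hJ0.le
  have h4 : (J : ℝ) * F P W a b / 2 ≤
      ∑ j ∈ Finset.range J, ((F P W a b : ℝ) - F P W a (b + 3 * W * j)) := by
    rw [Finset.sum_sub_distrib, Finset.sum_const, Finset.card_range, nsmul_eq_mul]
    linarith
  have hF0 : (0 : ℝ) ≤ F P W a b := Nat.cast_nonneg _
  have h5 : ((J : ℝ) * F P W a b / 2) ^ 2 ≤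
      (∑ j ∈ Finset.range J, ((F P W a b : ℝ) - F P W a (b + 3 * W * j))) ^ 2 := by
    apply pow_le_pow_left₀ (by positivity) h4
  have h6 := sq_sum_le_card_mul_sum_sq (s := Finset.range J)
    (f := fun j : ℕ => ((F P W a b : ℝ) - F P W a (b + 3 * W * j)))
  rw [Finset.card_range] at h6
  have h7 : ((J : ℝ) * F P W a b / 2) ^ 2 ≤
      J * ∑ j ∈ Finset.range J, ((F P W a b : ℝ) - F P W a (b + 3 * W * j)) ^ 2 := h5.trans h6
  rw [div_mul_eq_mul_div, le_div_iff₀ hJ0]
  have h8 : J * ((F P W a b : ℝ) ^ 2 * J) ≤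
      J * (4 * ∑ j ∈ Finset.range J, ((F P W a b : ℝ) - F P W a (b + 3 * W * j)) ^ 2) := by
    nlinarith [h7]
  exact le_of_mul_le_mul_left h8 hJ0

end Pool.Agent.Work.MP_916cc8_co.HO
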