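import Mathlib

/-!
# Unit area triangles in homogeneous sets

Statements of the items.  `St_X` is proved in the file `HO/P_X.lean` as `theorem I_X`.
Paper proof: team note of helper52 on MP_916cc8_co (title HOMOGENEOUS SETS).
-/

set_option autoImplicit false

namespace Pool.Agent.Work.MP_916cc8_co.HO

open MeasureTheory

open scoped Classical

/-- points of the plane -/
abbrev Pt := ℝ × ℝ

/-- cross product of `q - p` and `r - p` -/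
def ar (p q r : Pt) : ℝ := (q.1 - p.1) * (r.2 - p.2) - (q.2 - p.2) * (r.1 - p.1)

/-- every unit cell contains at most `K` points of `P` -/
def Cells (K : ℕ) (P : Finset Pt) : Prop :=
  ∀ i j : ℤ, (P.filter fun p => ⌊p.1⌋ = i ∧ ⌊p.2⌋ = j).card ≤ K

/-- `P` is contained in the square of side `2 S` centred at `0` -/
def Box (S : ℝ) (P : Finset Pt) : Prop :=
  ∀ p ∈ P, -S ≤ p.1 ∧ p.1 < S ∧ -S ≤ p.2 ∧ p.2 < S

/-- sup distance -/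
noncomputable def ds (p q : Pt) : ℝ := max |p.1 - q.1| |p.2 - q.2|

/-- number of points of `P` in the strip `|y - a x - b| ≤ h` -/
noncomputable def F (P : Finset Pt) (h a b : ℝ) : ℕ :=
  (P.filter fun p => |p.2 - a * p.1 - b| ≤ h).card

/-- vertical offset of `p` and `q` in direction `a` -/
def zz (p q : Pt) (a : ℝ) : ℝ := (p.2 - q.2) - a * (p.1 - q.1)

/-- tent function: the overlap of two intervals of half-length `h` whose centres differ by `z` -/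
noncomputable def tau (h z : ℝ) : ℝ := max 0 (2 * h - |z|)

/-- cut-off: `1` for `|a| ≤ 5`, `0` for `|a| ≥ 6` -/
noncomputable def om (a : ℝ) : ℝ := max 0 (min 1 (6 - |a|))

/-- slope of the line `p q` -/
noncomputable def sl (p q : Pt) : ℝ := (q.2 - p.2) / (q.1 - p.1)

/-- intercept of the line `p q` -/
noncomputable def ic (p q : Pt) : ℝ := p.2 - sl p q * p.1

/-- far pairs: `q.1 - p.1 > S / 2` -/
noncomputable def far (S : ℝ) (P : Finset Pt) : Finset (Pt × Pt) :=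
  (P ×ˢ P).filter fun z => S / 2 < z.2.1 - z.1.1

/-- ordered triples with area `A` (that is `|ar p q r| = 2 A`) -/
noncomputable def tri (P : Finset Pt) (A : ℝ) : Finset (Pt × Pt × Pt) :=
  (P ×ˢ P ×ˢ P).filter fun t => |ar t.1 t.2.1 t.2.2| = 2 * A

/-- those with first two points far -/
noncomputable def triX (S : ℝ) (P : Finset Pt) (A : ℝ) : Finset (Pt × Pt × Pt) :=
  (tri P A).filter fun t => S / 2 < t.2.1.1 - t.1.1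

/-! ### Counting in cells -/

/-- points in one column -/
def St_col : Prop :=
  ∀ (K : ℕ) (P : Finset Pt), Cells K P → ∀ (i : ℤ) (y Y : ℝ), 0 ≤ Y →
    ((P.filter fun p => ⌊p.1⌋ = i ∧ y ≤ p.2 ∧ p.2 ≤ y + Y).card : ℝ) ≤ K * (Y + 2)

/-- points in a rectangle -/
def St_rect : Prop :=
  ∀ (K : ℕ) (P : Finset Pt), Cells K P → ∀ (x y X Y : ℝ), 0 ≤ X → 0 ≤ Y →
    ((P.filter fun p => (x ≤ p.1 ∧ p.1 ≤ x + X) ∧ y ≤ p.2 ∧ p.2 ≤ y + Y).card : ℝ) ≤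
      K * (X + 2) * (Y + 2)

/-- number of points -/
def St_npt : Prop :=
  ∀ (K k : ℕ) (P : Finset Pt), Cells K P → Box (2 ^ k) P → (P.card : ℝ) ≤ 4 * K * (2 ^ k) ^ 2

/-- points in a strip -/
def St_strip : Prop :=
  ∀ (K k : ℕ) (P : Finset Pt), Cells K P → Box (2 ^ k) P → ∀ (h a b : ℝ), 0 ≤ h → |a| ≤ 6 →
    (F P h a b : ℝ) ≤ 4 * K * 2 ^ k * (h + 4)

/-- near points -/
def St_near : Prop :=
  ∀ (K : ℕ) (P : Finset Pt), Cells K P → ∀ (p : Pt) (ρ : ℝ), 1 ≤ ρ →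
    ((P.filter fun q => ds p q ≤ ρ).card : ℝ) ≤ 16 * K * ρ ^ 2

/-- sum of inverse distances -/
def St_sum1 : Prop :=
  ∀ (K k : ℕ) (P : Finset Pt), Cells K P → Box (2 ^ k) P → ∀ p ∈ P,
    ∑ q ∈ P.filter (fun q => 1 ≤ ds p q), 1 / ds p q ≤ (128 * K * 2 ^ k : ℝ)

/-- sum of inverse squared distances -/
def St_sum2 : Prop :=
  ∀ (K k : ℕ) (P : Finset Pt), Cells K P → Box (2 ^ k) P → ∀ p ∈ P,
    ∑ q ∈ P.filter (fun q => 1 ≤ ds p q), 1 / ds p q ^ 2 ≤ (64 * K * (k + 2) : ℝ)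

/-! ### Integrals over the intercept -/

/-- second moment -/
def St_bint : Prop :=
  ∀ (P : Finset Pt) (h a : ℝ), 0 < h →
    Integrable (fun b : ℝ => (F P h a b : ℝ) ^ 2) ∧
      ∫ b : ℝ, (F P h a b : ℝ) ^ 2 = ∑ p ∈ P, ∑ q ∈ P, tau h (zz p q a)

/-- second moment of differences -/
def St_bdiff : Prop :=
  ∀ (P : Finset Pt) (h a t : ℝ), 0 < h →
    Integrable (fun b : ℝ => ((F P h a b : ℝ) - F P h a (b + t)) ^ 2) ∧
      ∫ b : ℝ, ((F P h a b : ℝ) - F P h a (b + t)) ^ 2 =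
        2 * ∑ p ∈ P, ∑ q ∈ P, (tau h (zz p q a) - tau h (zz p q a + t))

/-! ### Integrals over the slope -/

/-- one term: elementary bound -/
def St_a0 : Prop :=
  ∀ (p q : Pt) (h t : ℝ), 0 < h →
    Integrable (fun a : ℝ => om a * tau h (zz p q a + t)) ∧
      0 ≤ ∫ a : ℝ, om a * tau h (zz p q a + t) ∧ ∫ a : ℝ, om a * tau h (zz p q a + t) ≤ 24 * h

/-- one term: decay -/
def St_a1 : Prop :=
  ∀ (p q : Pt) (h : ℝ), 0 < h → 0 < ds p q →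
    ∫ a : ℝ, om a * tau h (zz p q a) ≤ 192 * h ^ 2 / ds p q

/-- one term: cancellation -/
def St_a2 : Prop :=
  ∀ (p q : Pt) (h t : ℝ), 0 < h → h ≤ 1 / 8 → 0 ≤ t → t ≤ 1 → 1 ≤ ds p q →
    ∫ a : ℝ, (om a * tau h (zz p q a) - om a * tau h (zz p q a + t)) ≤ 512 * h ^ 2 / ds p q ^ 2

/-- sum over all pairs, second moment -/
def St_S1 : Prop :=
  ∀ (K k : ℕ) (P : Finset Pt), Cells K P → Box (2 ^ k) P → ∀ h : ℝ, 6 / 2 ^ k ≤ h →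
    ∑ p ∈ P, ∑ q ∈ P, ∫ a : ℝ, om a * tau h (zz p q a) ≤ 25000 * K * P.card * 2 ^ k * h ^ 2

/-- sum over all pairs, differences -/
def St_S2 : Prop :=
  ∀ (K k : ℕ) (P : Finset Pt), Cells K P → Box (2 ^ k) P → ∀ h t : ℝ, 0 < h → h ≤ 1 / 8 →
    0 ≤ t → t ≤ 1 →
    ∑ p ∈ P, ∑ q ∈ P, ∫ a : ℝ, (om a * tau h (zz p q a) - om a * tau h (zz p q a + t)) ≤
      5000 * K * P.card * h * (k + 2)

/-! ### Rich lines -/

/-- the line of a far pair -/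
def St_line : Prop :=
  ∀ (S A : ℝ) (P : Finset Pt), 0 < S → 0 ≤ A → Box S P → ∀ p ∈ P, ∀ q ∈ P, ∀ r ∈ P,
    S / 2 < q.1 - p.1 → |sl p q| ≤ 4 ∧ |q.2 - sl p q * q.1 - ic p q| = 0 ∧
      (|ar p q r| = 2 * A → |r.2 - sl p q * r.1 - ic p q| ≤ 4 * A / S)

/-- pointwise inequality for the rich strips -/
def St_pt : Prop :=
  ∀ (K k J : ℕ) (P : Finset Pt), Cells K P → Box (2 ^ k) P → ∀ W a b r : ℝ, 0 < W → W ≤ 1 / 8 →
    |a| ≤ 6 → 1 ≤ J → 3 * W * J ≤ 1 → 40 * K * 2 ^ k ≤ J * r → r ≤ F P W a b →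
    (F P W a b : ℝ) ^ 2 ≤
      4 / J * ∑ j ∈ Finset.range J, ((F P W a b : ℝ) - F P W a (b + 3 * W * j)) ^ 2

/-- inequality for a fixed slope -/
def St_fix : Prop :=
  ∀ (K k J : ℕ) (P : Finset Pt), Cells K P → Box (2 ^ k) P → ∀ W a r : ℝ, 0 < W → W ≤ 1 / 8 →
    |a| ≤ 6 → 1 ≤ J → 3 * W * J ≤ 1 → 40 * K * 2 ^ k ≤ J * r → 0 < r →
    ∀ N : Finset (Pt × Pt), N ⊆ far (2 ^ k) P →
    (∀ z ∈ N, r ≤ F P (W / 4) (sl z.1 z.2) (ic z.1 z.2)) →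
    ((N.filter fun z => |a - sl z.1 z.2| ≤ W / (4 * 2 ^ k)).card : ℝ) * (W / 2) ≤
      4 / J * ∑ j ∈ Finset.range J,
        ∫ b : ℝ, ((F P W a b : ℝ) - F P W a (b + 3 * W * j)) ^ 2

/-- number of rich far pairs -/
def St_rich : Prop :=
  ∀ (K k J : ℕ) (P : Finset Pt), Cells K P → Box (2 ^ k) P → ∀ W r : ℝ, 0 < W → W ≤ 1 / 8 →
    1 ≤ J → 3 * W * J ≤ 1 → 40 * K * 2 ^ k ≤ J * r → 0 < r →
    ∀ N : Finset (Pt × Pt), N ⊆ far (2 ^ k) P →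
    (∀ z ∈ N, r ≤ F P (W / 4) (sl z.1 z.2) (ic z.1 z.2)) →
    (N.card : ℝ) * W ≤ 160000 * K * P.card * 2 ^ k * (k + 2)

/-- the same, optimised -/
def St_N : Prop :=
  ∀ (K k : ℕ) (P : Finset Pt), Cells K P → Box (2 ^ k) P → ∀ A r : ℝ, 1 ≤ A → 7680 * K * A ≤ r →
    0 < r →
    ∀ N : Finset (Pt × Pt), N ⊆ far (2 ^ k) P →
    (∀ z ∈ N, r ≤ F P (8 * A / 2 ^ k) (sl z.1 z.2) (ic z.1 z.2)) →
    (N.card : ℝ) * r ≤ 40000000 * K ^ 2 * P.card * (2 ^ k) ^ 2 * (k + 2)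

/-- the triples whose line is rich -/
def St_T1 : Prop :=
  ∃ C : ℝ, 0 < C ∧ ∀ (K k : ℕ) (P : Finset Pt), 1 ≤ K → Cells K P → Box (2 ^ k) P →
    ∀ A B : ℝ, 0 < A → A ≤ B → 1 ≤ B →
    (((triX (2 ^ k) P A).filter fun t =>
      7680 * K * B ≤ F P (8 * B / 2 ^ k) (sl t.1 t.2.1) (ic t.1 t.2.1)).card : ℝ) ≤
      C * K ^ 4 * (2 ^ k) ^ 4 * (k + 2) ^ 2

/-! ### Poor lines -/

/-- the general upper bound, for ordered triples and any area -/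
def St_U : Prop :=
  ∃ C : ℝ, 0 < C ∧ ∀ (P : Finset Pt) (A : ℝ), 0 < A →
    ((tri P A).card : ℝ) ≤ C * (P.card : ℝ) ^ ((13 : ℝ) / 6)

/-- inequality for a fixed slope -/
def St_fix2 : Prop :=
  ∀ (C : ℝ), 0 < C → (∀ (P : Finset Pt) (A : ℝ), 0 < A →
      ((tri P A).card : ℝ) ≤ C * (P.card : ℝ) ^ ((13 : ℝ) / 6)) →
    ∀ (k : ℕ) (P : Finset Pt), Box (2 ^ k) P → ∀ A B w R a : ℝ, 0 < A → A ≤ B → w = 8 * B / 2 ^ k →
    0 < R → 1 ≤ B →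
    ∀ N : Finset (Pt × Pt × Pt), N ⊆ triX (2 ^ k) P A →
    (∀ t ∈ N, F P w (sl t.1 t.2.1) (ic t.1 t.2.1) ≤ R) →
    ((N.filter fun t => |a - sl t.1 t.2.1| ≤ w / (32 * 2 ^ k)).card : ℝ) * (w / 4) ≤
      C * R ^ ((1 : ℝ) / 6) * ∫ b : ℝ, (F P (3 * w / 4) a b : ℝ) ^ 2

/-- the triples whose line is poor -/
def St_T2 : Prop :=
  ∃ C : ℝ, 0 < C ∧ ∀ (K k : ℕ) (P : Finset Pt), 1 ≤ K → Cells K P → Box (2 ^ k) P →
    ∀ A B : ℝ, 0 < A → A ≤ B → 1 ≤ B → B ≤ 4 * (2 ^ k) ^ 2 →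
    (((triX (2 ^ k) P A).filter fun t =>
      ¬ 7680 * K * B ≤ F P (8 * B / 2 ^ k) (sl t.1 t.2.1) (ic t.1 t.2.1)).card : ℝ) ≤
      C * K ^ 4 * (2 ^ k) ^ 4 * B ^ ((1 : ℝ) / 6)

/-! ### The theorem -/

/-- far triples -/
def St_X : Prop :=
  ∃ C : ℝ, 0 < C ∧ ∀ (K k : ℕ) (P : Finset Pt), 1 ≤ K → Cells K P → Box (2 ^ k) P →
    ∀ A : ℝ, 0 < A →
    ((triX (2 ^ k) P A).card : ℝ) ≤ C * K ^ 4 * (2 ^ k) ^ 4 * (k + 2) ^ 2 * (1 + A) ^ ((1 : ℝ) / 6)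

/-- all triples of large diameter -/
def St_diam : Prop :=
  St_X → ∃ C : ℝ, 0 < C ∧ ∀ (K k : ℕ) (P : Finset Pt), 1 ≤ K → Cells K P → Box (2 ^ k) P →
    ∀ A : ℝ, 0 < A →
    (((tri P A).filter fun t => 2 ^ k / 2 < ds t.1 t.2.1 ∨ 2 ^ k / 2 < ds t.1 t.2.2 ∨
      2 ^ k / 2 < ds t.2.1 t.2.2).card : ℝ) ≤
        C * K ^ 4 * (2 ^ k) ^ 4 * (k + 2) ^ 2 * (1 + A) ^ ((1 : ℝ) / 6)

/-- subdivision -/
def St_sub : Prop :=
  ∀ (K k : ℕ) (P : Finset Pt), Cells K P → Box (2 ^ (k + 1)) P →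
    ∃ Q : Fin 9 → Finset Pt, (∀ i, Cells K (Q i)) ∧ (∀ i, Box (2 ^ k) (Q i)) ∧
      ∀ A : ℝ, ((tri P A).filter fun t => ds t.1 t.2.1 ≤ 2 ^ k ∧ ds t.1 t.2.2 ≤ 2 ^ k ∧
        ds t.2.1 t.2.2 ≤ 2 ^ k).card ≤ ∑ i, (tri (Q i) A).card

/-- the theorem in normalised form -/
def St_all : Prop :=
  ∃ C : ℝ, 0 < C ∧ ∀ (K k : ℕ) (P : Finset Pt), 1 ≤ K → Cells K P → Box (2 ^ k) P →
    ∀ A : ℝ, 0 < A →
    ((tri P A).card : ℝ) ≤ C * K ^ 4 * (2 ^ k) ^ 4 * (k + 2) ^ 2 * (1 + A) ^ ((1 : ℝ) / 6)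

end Pool.Agent.Work.MP_916cc8_co.HO
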